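import Pool.Agent.Dts.Sub

/-!
Tight sets met by trees of both kinds, and essential sets, contain vertices reaching both sinks.
-/

namespace Pool.Agent.Dts

open Finset

open scoped Classical

namespace Dat

variable {V A I : Type*} [Fintype V] [Fintype A] [Fintype I]
variable {D : Dat V A} {X : Finset A} {T : I → Finset V} {U K W : Finset V} {k : ℕ} {κ : I → Bool}

/-- A tight set met by trees of both kinds contains a vertex which reaches both sinks. -/
theorem tight_mixed (hk : 1 ≤ k) (hv : D.Valid k X T) (hkd : D.Kd κ T) (hU : D.Tight k X T U)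
    (hm : ∀ b, ∃ i, κ i = b ∧ i ∈ mt T U) : ∃ x ∈ U, D.C x := by
  by_contra hc
  push Not at hc
  have hex : ∀ x ∈ U, ∀ b, D.R x (D.t b) → ¬ D.R x (D.t (!b)) := by
    intro x hx b h1 h2
    refine hc x hx fun b' => ?_
    by_cases hb : b' = b
    · rw [hb]
      exact h1
    · have : b' = !b := by
        cases b <;> cases b' <;> simp_all
      rw [this]
      exact h2
  have hL : ∀ b, D.L0 (U.filter fun x => D.R x (D.t b)) := by
    intro b
    refine ⟨?_, ?_, ?_⟩
    · obtain ⟨i, hi, hmi⟩ := hm b
      obtain ⟨x, hx, hxU⟩ := (mt_iff T U i).1 hmi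
      have h1 := hkd i x hx
      rw [hi] at h1
      exact ⟨x, mem_filter.2 ⟨hxU, h1⟩⟩
    · intro x y hxy hy
      rw [mem_filter] at hy ⊢
      exact ⟨hU.1.2.1 x y hxy hy.1, D.trans _ _ _ hxy hy.2⟩
    · intro b' hb'
      exact hU.1.2.2 b' (mem_filter.1 hb').1
  have h1 := hv _ (hL false)
  have h2 := hv _ (hL true)
  have h3 := hU.2
  have hd : D.d X (U.filter fun x => D.R x (D.t false)) +
      D.d X (U.filter fun x => D.R x (D.t true)) ≤ D.d X U := by
    unfold d
    rw [← card_union_of_disjoint]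
    · refine card_le_card ?_
      intro e he
      rw [mem_union] at he
      have key : ∀ b, (e ∈ X ∧ D.u e ∈ U.filter (fun x => D.R x (D.t b)) ∧
          D.j e ∉ U.filter (fun x => D.R x (D.t b))) → e ∈ X.filter fun e => D.u e ∈ U ∧ D.j e ∉ U := by
        rintro b ⟨heX, hu, hj⟩
        rw [mem_filter] at hu
        refine mem_filter.2 ⟨heX, hu.1, fun hjU => hj (mem_filter.2 ⟨hjU, ?_⟩)⟩
        obtain ⟨b', hb'⟩ := D.sink (D.j e)
        by_cases hbb : b' = b
        · rw [← hbb]
          exact hb'
        · have hnot : b' = !b := by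
            cases b <;> cases b' <;> simp_all
          rw [hnot] at hb'
          exact absurd (D.trans _ _ _ (D.arc e) hb') (hex _ hu.1 b hu.2)
      rcases he with he | he
      · exact key false ((mem_filter (p := fun e => D.u e ∈ U.filter (fun x => D.R x (D.t false)) ∧
          D.j e ∉ U.filter (fun x => D.R x (D.t false)))).1 he)
      · exact key true ((mem_filter (p := fun e => D.u e ∈ U.filter (fun x => D.R x (D.t true)) ∧
          D.j e ∉ U.filter (fun x => D.R x (D.t true)))).1 he)
    · rw [disjoint_left]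
      intro e he he'
      rw [mem_filter, mem_filter] at he he'
      exact hex _ he.2.1.1 false he.2.1.2 he'.2.1.2
  have hmt : (mt T (U.filter fun x => D.R x (D.t false))).card +
      (mt T (U.filter fun x => D.R x (D.t true))).card ≤ (mt T U).card := by
    rw [← card_union_of_disjoint]
    · exact card_le_card (union_subset (mt_mono T (filter_subset _ _)) (mt_mono T (filter_subset _ _)))
    · rw [disjoint_left]
      intro i hi hi'
      obtain ⟨x, hx, hxU⟩ := (mt_iff _ _ _).1 hi
      obtain ⟨y, hy, hyU⟩ := (mt_iff _ _ _).1 hi'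
      rw [mem_filter] at hxU hyU
      have hx1 := hkd i x hx
      have hy1 := hkd i y hy
      cases hκ : κ i with
      | false =>
        rw [hκ] at hy1
        exact hex y hyU.1 false hy1 hyU.2
      | true =>
        rw [hκ] at hx1
        exact hex x hxU.1 false hxU.2 hx1
  unfold h at h1 h2 h3
  omega

/-- An essential set contains a vertex which reaches both sinks. -/
theorem ess_C (hv : D.Valid k X T) (hkd : D.Kd κ T) (hc : Cnt κ k) (hK : D.Ess κ X T K) :
    ∃ x ∈ K, D.C x := by
  by_contra hn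
  push Not at hn
  have hex : ∀ x ∈ K, ∀ b b', D.R x (D.t b) → D.R x (D.t b') → b' = b := by
    intro x hx b b' h1 h2
    by_contra hbb
    refine hn x hx fun c => ?_
    by_cases hcb : c = b
    · rw [hcb]
      exact h1
    · have : c = b' := by
        cases b <;> cases b' <;> cases c <;> simp_all
      rw [this]
      exact h2
  obtain ⟨x, hx⟩ := hK.1.1.1.1
  obtain ⟨b, hb⟩ := D.sink x
  have hz : D.ZZ X (K.filter fun x => D.R x (D.t b)) := by
    refine ⟨⟨⟨x, mem_filter.2 ⟨hx, hb⟩⟩, ?_, ?_⟩, ?_⟩
    · intro y z hyz hz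
      rw [mem_filter] at hz ⊢
      exact ⟨hK.1.1.1.2.1 y z hyz hz.1, D.trans _ _ _ hyz hz.2⟩
    · intro b' hb'
      exact hK.1.1.1.2.2 b' (mem_filter.1 hb').1
    · rw [d_zero_iff]
      intro e he hu
      rw [mem_filter] at hu ⊢
      have hj := (d_zero_iff.1 hK.1.1.2) e he hu.1
      obtain ⟨b', hb'⟩ := D.sink (D.j e)
      have h1 := hex _ hu.1 b b' hu.2 (D.trans _ _ _ (D.arc e) hb')
      rw [h1] at hb'
      exact ⟨hj, hb'⟩
  have hKK := hK.1.2 _ hz (filter_subset _ _)
  have hsub : mt T K ⊆ (univ : Finset I).filter fun i => κ i = b := by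
    intro i hi
    obtain ⟨y, hy, hyK⟩ := (mt_iff _ _ _).1 hi
    refine mem_filter.2 ⟨mem_univ _, ?_⟩
    have h1 := hkd i y hy
    have h2 : D.R y (D.t b) := by
      rw [← hKK] at hyK
      exact (mem_filter.1 hyK).2
    exact hex y hyK b (κ i) h2 h1
  have hcard := zz_card hv hK.1.1
  have heq : mt T K = (univ : Finset I).filter fun i => κ i = b := by
    refine eq_of_subset_of_card_le hsub ?_
    rw [hc b]
    exact hcard
  obtain ⟨i, hi, hmi⟩ := hK.2 b
  refine hmi ?_
  rw [heq]
  exact mem_filter.2 ⟨mem_univ _, hi⟩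

theorem mem_N_of_C {b : Bool} {x : V} (hx : D.C x) (hW : ∀ y ∈ W, D.R y (D.t b) ∧ ¬ D.C y) :
    x ∈ D.N b W := by
  rw [mem_N]
  refine ⟨fun h => D.ind b (D.trans _ _ _ h (hx (!b))), fun y hy h => (hW y hy).2 fun b' => ?_⟩
  exact D.trans _ _ _ h (hx b')

end Dat

end Pool.Agent.Dts
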