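import Pool.Agent.Dts.Grow

/-!
The number of essential sets under growth.
-/

namespace Pool.Agent.Dts

open Finset

open scoped Classical

namespace Dat

variable {V A I : Type*} [Fintype V] [Fintype A] [Fintype I]
variable {D : Dat V A} {X : Finset A} {T : I → Finset V} {K L : Finset V} {k : ℕ} {i : I}
  {b : Bool} {e : A} {κ : I → Bool}

/-- A minimal set which does not contain the tail is a minimal set of the old state. -/
theorem ssc_old (he : e ∈ X) {K4 : Finset V} (h4 : D.SSC (X.erase e) K4) (hu : D.u e ∉ K4) :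
    D.SSC X K4 := by
  have h1 := d_erase (D := D) he K4
  rw [if_neg (fun h => hu h.1), h4.1.2] at h1
  exact ⟨⟨h4.1.1, by omega⟩, fun Z hZ hs => h4.2 Z (zz_mono (erase_subset _ _) hZ) hs⟩

/-- Growth inside an essential set. -/
theorem stepK (hs : D.Step b X T i e) (hK : D.Ess κ X T K) (hm : i ∈ mt T K)
    (hu : D.u e ∈ K) (hj : D.j e ∈ K) :
    D.rE κ (X.erase e) (gr T i (D.u e)) ≤ D.rE κ X T ∧
      ∃ K', K' ⊆ K ∧ D.Ess κ (X.erase e) (gr T i (D.u e)) K' ∧
        i ∈ mt (gr T i (D.u e)) K' := by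
  obtain ⟨K', hK'K, hK'⟩ := exists_ssc (zz_mono (erase_subset e X) hK.1.1)
  have hu' : D.u e ∈ K' := by
    by_contra hn
    have h1 := ssc_old hs.mem hK' hn
    have h2 := hK.1.2 K' h1.1 hK'K
    exact hn (h2 ▸ hu)
  have hmK : mt (gr T i (D.u e)) K = mt T K := by
    rw [mt_gr, if_pos hu, insert_eq_of_mem hm]
  have hE : D.Ess κ (X.erase e) (gr T i (D.u e)) K' := by
    refine ⟨hK', fun b' => ?_⟩
    obtain ⟨i', h1, h2⟩ := hK.2 b'
    refine ⟨i', h1, fun h3 => h2 ?_⟩
    rw [← hmK]
    exact mt_mono _ hK'K h3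
  refine ⟨?_, K', hK'K, hE, ?_⟩
  · unfold rE
    refine card_le_card_of_injOn (fun K4 => if D.u e ∈ K4 then K else K4) ?_ ?_
    · intro K4 h4
      have h4' : D.Ess κ (X.erase e) (gr T i (D.u e)) K4 := by
        have h5 := mem_coe.1 h4
        rw [mem_filter] at h5
        exact h5.2
      refine mem_coe.2 (mem_filter.2 ⟨mem_univ _, ?_⟩)
      dsimp only
      split_ifs with h
      · exact hK
      · refine ⟨ssc_old hs.mem h4'.1 h, fun b' => ?_⟩
        obtain ⟨i', h1, h2⟩ := h4'.2 b'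
        rw [mt_gr, if_neg h] at h2
        exact ⟨i', h1, h2⟩
    · intro K4 h4 K5 h5 h45
      have h4' : D.Ess κ (X.erase e) (gr T i (D.u e)) K4 := by
        have h6 := mem_coe.1 h4
        rw [mem_filter] at h6
        exact h6.2
      have h5' : D.Ess κ (X.erase e) (gr T i (D.u e)) K5 := by
        have h6 := mem_coe.1 h5
        rw [mem_filter] at h6
        exact h6.2
      dsimp only at h45
      split_ifs at h45 with h6 h7 h7
      · exact ssc_eq h4'.1 h5'.1 ⟨D.u e, mem_inter.2 ⟨h6, h7⟩⟩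
      · exact absurd (h45 ▸ hu) h7
      · exact absurd (h45.symm ▸ hu) h6
      · exact h45
  · rw [mt_gr, if_pos hu']
    exact mem_insert_self _ _

end Dat

end Pool.Agent.Dts
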