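import Pool.Agent.Dts.Reend
import Pool.Agent.Dts.StepK
import Pool.Agent.Dts.Mix

/-!
In an extremal system, every path meets at most one essential set.
-/

namespace Pool.Agent.Dts

open Finset

open scoped Classical

theorem split_last {A : Type*} (P : A → Prop) (l : List A) (h : ∃ e ∈ l, P e) :
    ∃ q e q2, l = q ++ e :: q2 ∧ P e ∧ ∀ f ∈ q2, ¬ P f := by
  induction l with
  | nil => obtain ⟨e, he, -⟩ := h; simp at he
  | cons a l ih =>
    by_cases h1 : ∃ e ∈ l, P e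
    · obtain ⟨q, e, q2, h2, h3, h4⟩ := ih h1
      exact ⟨a :: q, e, q2, by rw [h2]; rfl, h3, h4⟩
    · obtain ⟨e, he, hPe⟩ := h
      rcases List.mem_cons.1 he with rfl | he
      · exact ⟨[], e, l, rfl, hPe, fun f hf hPf => h1 ⟨f, hf, hPf⟩⟩
      · exact absurd ⟨e, he, hPe⟩ h1

namespace Dat

variable {V A I : Type*} [Fintype V] [Fintype A] [Fintype I]
variable {D : Dat V A} {S X Y : Finset A} {K K2 W : Finset V} {k : ℕ} {κ : I → Bool}
  {p : I → List A} {T : I → Finset V} {i : I}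

theorem mt_update_subset (hW : W ⊆ T i) (U : Finset V) : mt (Function.update T i W) U ⊆ mt T U := by
  intro i' h
  rw [mt_iff] at h ⊢
  obtain ⟨x, hx, hxU⟩ := h
  by_cases hi : i' = i
  · subst hi
    rw [Function.update_self] at hx
    exact ⟨x, hW hx, hxU⟩
  · rw [Function.update_of_ne hi] at hx
    exact ⟨x, hx, hxU⟩

theorem gr_update (T : I → Finset V) (i : I) (W : Finset V) (x : V) :
    gr (Function.update T i W) i x = Function.update T i (insert x W) := by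
  unfold gr
  rw [Function.update_idem, Function.update_self]

theorem kd_update (hT : D.Kd κ T) (hW : ∀ x ∈ W, D.R x (D.t (κ i))) :
    D.Kd κ (Function.update T i W) := by
  intro i' x hx
  by_cases hi : i' = i
  · subst hi
    rw [Function.update_self] at hx
    exact hW x hx
  · rw [Function.update_of_ne hi] at hx
    exact hT i' x hx

/-- Arcs with tail outside of `K` are added to the rest. -/
theorem d_add_eq (hd : Disjoint X Y) (h : ∀ e ∈ Y, D.u e ∉ K) : D.d (X ∪ Y) K = D.d X K := by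
  rw [d_union hd]
  have : D.d Y K = 0 := d_zero_iff.2 fun e he hu => absurd hu (h e he)
  omega

theorem ess_add (hd : D.Drp X Y T i W) (h : ∀ e ∈ Y, D.u e ∉ K) (hK : D.Ess κ X T K) :
    D.Ess κ (X ∪ Y) (Function.update T i W) K := by
  refine ⟨⟨⟨hK.1.1.1, ?_⟩, fun Z hZ hs => hK.1.2 Z (zz_mono subset_union_left hZ) hs⟩, ?_⟩
  · rw [d_add_eq hd.dis h]
    exact hK.1.1.2
  · intro b
    obtain ⟨i', h1, h2⟩ := hK.2 b
    exact ⟨i', h1, fun h3 => h2 (mt_update_subset hd.sub _ h3)⟩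

theorem claimA_aux (hp : D.Extr k κ S p) (hc : Cnt κ k) (hK : D.Ess κ (rest S p) (D.tt p) K)
    (hK2 : D.Ess κ (rest S p) (D.tt p) K2) (hne : K ≠ K2) (i : I) {q q2 : List A} {e : A}
    (hq : p i = (q ++ [e]) ++ q2) (he : D.u e ∈ K) (hn : ∀ f ∈ q2, D.u f ∉ K)
    (hf : ∃ f ∈ q2, D.u f ∈ K2) : False := by
  have hS := hp.1
  have hdrp := hS.trunc i hq
  have hq2 : q2 ≠ [] := by
    rintro rfl
    obtain ⟨f, hf, -⟩ := hf
    simp at hf
  have hYK : ∀ f ∈ q2.toFinset, D.u f ∉ K := fun f hf => hn f (List.mem_toFinset.1 hf)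
  have hfol : D.Fol (D.u e) q2 := by
    have h1 := (hS.pth i).1
    rw [hq, fol_append, en_concat] at h1
    exact h1.2
  have hess := ess_add hdrp hYK hK
  have hlt := drop_rE_lt (κ := κ) hdrp hK2 (by
    intro K' hK' hs
    have h1 : D.u e ∉ K' := by
      intro h2
      have h3 := ssc_eq hess.1 hK' ⟨D.u e, mem_inter.2 ⟨he, h2⟩⟩
      rw [← h3] at hs
      exact hne (hK.1.2 K2 hK2.1.1 hs).symm
    obtain ⟨f, hf, hfK⟩ := hf
    obtain ⟨g, hg, hgu, hgj⟩ := fol_leave hfol hK'.1.1.2.1 h1 ⟨f, hf, hs hfK⟩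
    exact hgj (d_zero_iff.1 hK'.1.2 g (mem_union_right _ (List.mem_toFinset.2 hg)) hgu))
  obtain ⟨X, W, n, l, p', ⟨-, h1, -⟩, -, h2, -, h3, -⟩ := reend (L := univ) hS i hq hq2
    (fun X W => D.Valid k X (Function.update (D.tt p) i W) ∧
      D.rE κ X (Function.update (D.tt p) i W) < D.rE κ (rest S p) (D.tt p) ∧
      ∃ K', D.Ess κ X (Function.update (D.tt p) i W) K' ∧
        i ∈ mt (Function.update (D.tt p) i W) K')
    (fun X W h => h.1)
    (by
      rintro X W ⟨h1, h2, K', h3, h4⟩ hW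
      have hkd := kd_update (i := i) hS.kd fun x hx => (hW x hx).1
      obtain ⟨x, hxK, hxC⟩ := ess_C h1 hkd hc h3
      have hxN : x ∈ D.N (κ i) (Function.update (D.tt p) i W i) := by
        rw [Function.update_self]
        exact mem_N_of_C hxC hW
      obtain ⟨g, hg, hgu, hgj, hgv⟩ := grow_ssc h1 h3.1 h4 ⟨x, hxK, hxN⟩
      obtain ⟨h5, K'', -, h6, h7⟩ := stepK hg h3 h4 hgu hgj
      have hgN := hg.uN
      have hgN' := hg.jN
      rw [Function.update_self] at hgN hgN'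
      rw [gr_update] at hgv h5 h6 h7
      exact ⟨g, hg.mem, mem_univ _, hgN, hgN', hgv, lt_of_le_of_lt h5 h2, K'', h6, h7⟩)
    ⟨drop_valid hdrp hS.val, hlt, K, hess, by
      rw [mt_iff, Function.update_self]
      exact ⟨D.u e, mem_tl.2 ⟨e, by simp, rfl⟩, he⟩⟩
  exact hp.2 p' h2 (Or.inl (lt_of_le_of_lt h3 h1))

theorem claimA (hp : D.Extr k κ S p) (hc : Cnt κ k) (hK : D.Ess κ (rest S p) (D.tt p) K)
    (hK2 : D.Ess κ (rest S p) (D.tt p) K2) (i : I) (hi : i ∈ mt (D.tt p) K)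
    (hi2 : i ∈ mt (D.tt p) K2) : K = K2 := by
  by_contra hne
  have hdis : ∀ x, x ∈ K → x ∉ K2 := fun x h1 h2 =>
    hne (ssc_eq hK.1 hK2.1 ⟨x, mem_inter.2 ⟨h1, h2⟩⟩)
  obtain ⟨x, hx, hxK⟩ := (mt_iff _ _ _).1 hi
  obtain ⟨e, he, rfl⟩ := mem_tl.1 hx
  obtain ⟨y, hy, hyK⟩ := (mt_iff _ _ _).1 hi2
  obtain ⟨f, hf, rfl⟩ := mem_tl.1 hy
  obtain ⟨q, g, q2, h1, h2, h3⟩ := split_last (fun e => D.u e ∈ K) (p i) ⟨e, he, hxK⟩
  by_cases h4 : ∃ f ∈ q2, D.u f ∈ K2
  · exact claimA_aux hp hc hK hK2 hne i (q := q) (e := g) (q2 := q2) (by rw [h1]; simp) h2 h3 h4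
  · push Not at h4
    have h5 : f ∈ q := by
      rw [h1, List.mem_append, List.mem_cons] at hf
      rcases hf with hf | rfl | hf
      · exact hf
      · exact absurd hyK (hdis _ h2)
      · exact absurd hyK (h4 f hf)
    obtain ⟨r, g2, r2, h6, h7, h8⟩ := split_last (fun e => D.u e ∈ K2) q ⟨f, h5, hyK⟩
    refine claimA_aux hp hc hK2 hK (Ne.symm hne) i (q := r) (e := g2) (q2 := r2 ++ g :: q2)
      (by rw [h1, h6]; simp) h7 ?_ ⟨g, by simp, h2⟩
    intro f hf
    rw [List.mem_append, List.mem_cons] at hf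
    rcases hf with hf | rfl | hf
    · exact h8 f hf
    · exact hdis _ h2
    · exact h4 f hf

end Dat

end Pool.Agent.Dts
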