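import Pool.Agent.Dts.Grow

/-!
Growth inside a tight set.
-/

namespace Pool.Agent.Dts

open Finset

open scoped Classical

namespace Dat

variable {V A I : Type*} [Fintype V] [Fintype A] [Fintype I]
variable {D : Dat V A} {X : Finset A} {T : I → Finset V} {K L : Finset V} {k : ℕ} {i : I}
  {b : Bool} {e : A} {κ : I → Bool}

theorem stepX_tight (hs : D.Step b X T i e) (hL : D.Tight k X T L) (hm : i ∈ mt T L)
    (hu : D.u e ∈ L) (hj : D.j e ∈ L) :
    D.Tight k (X.erase e) (gr T i (D.u e)) L ∧ D.d (X.erase e) L = D.d X L ∧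
      mt (gr T i (D.u e)) L = mt T L := by
  have h1 : mt (gr T i (D.u e)) L = mt T L := by
    rw [mt_gr, if_pos hu, insert_eq_of_mem hm]
  have h2 : D.d (X.erase e) L = D.d X L := by
    have h3 := d_erase (D := D) hs.mem L
    rw [if_neg (fun h => h.2 hj)] at h3
    exact h3
  refine ⟨⟨hL.1, ?_⟩, h2, h1⟩
  unfold h
  rw [h1, h2]
  exact hL.2

theorem ssc_old' (he : e ∈ X) {K4 : Finset V} (h4 : D.SSC (X.erase e) K4) (hu : D.u e ∉ K4) :
    D.SSC X K4 := by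
  have h1 := d_erase (D := D) he K4
  rw [if_neg (fun h => hu h.1), h4.1.2] at h1
  exact ⟨⟨h4.1.1, by omega⟩, fun Z hZ hs => h4.2 Z (zz_mono (erase_subset _ _) hZ) hs⟩

/-- A new minimal set containing the tail is contained in an old one, which is essential if the new
one is. -/
theorem stepX_old (hs : D.Step b X T i e) (hv : D.Valid k X T)
    (hv' : D.Valid k (X.erase e) (gr T i (D.u e))) (hL : D.Tight k X T L) (hd : 0 < D.d X L)
    (hm : i ∈ mt T L) (hu : D.u e ∈ L) (hj : D.j e ∈ L) {K' : Finset V}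
    (hK' : D.Ess κ (X.erase e) (gr T i (D.u e)) K') (hu' : D.u e ∈ K') :
    ∃ K0, K' ⊆ K0 ∧ D.Ess κ X T K0 := by
  obtain ⟨ht, hdL, hmL⟩ := stepX_tight hs hL hm hu hj
  obtain ⟨-, -, h3, h4⟩ := tight_zz hv' ht hK'.1.1 ⟨D.u e, mem_inter.2 ⟨hu, hu'⟩⟩
  have h5 : D.ZZ X (L ∪ K') := by
    have h6 := d_erase (D := D) hs.mem (L ∪ K')
    rw [if_neg (fun h => h.2 (mem_union_left _ hj)), h3.2] at h6
    exact ⟨h3.1, by omega⟩
  obtain ⟨K0, hK0, hK0s⟩ := exists_ssc h5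
  have h6 : (K' ∩ K0).Nonempty := by
    by_contra hcon
    rw [not_nonempty_iff_eq_empty] at hcon
    have h7 : K0 ⊆ L := by
      intro x hx
      rcases mem_union.1 (hK0 hx) with h | h
      · exact h
      · exact absurd (mem_inter.2 ⟨h, hx⟩) (by rw [hcon]; exact notMem_empty _)
    have h8 : k ≤ (mt T K0).card := zz_card hv hK0s.1
    have h9 := card_le_card (mt_mono T h7)
    have h10 := hL.2
    unfold h at h10
    omega
  have h7 : K' ⊆ K0 := ssc_sub hK'.1 (zz_mono (erase_subset _ _) hK0s.1) h6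
  refine ⟨K0, h7, hK0s, fun c => ?_⟩
  obtain ⟨i', h8, h9⟩ := hK'.2 c
  refine ⟨i', h8, fun h10 => h9 ?_⟩
  obtain ⟨x, hx, hxK⟩ := (mt_iff _ _ _).1 h10
  rcases mem_union.1 (hK0 hxK) with h | h
  · refine h4 ?_
    rw [hmL]
    exact (mt_iff _ _ _).2 ⟨x, hx, h⟩
  · rw [mt_gr, if_pos hu']
    exact mem_insert_of_mem ((mt_iff _ _ _).2 ⟨x, hx, h⟩)

/-- Growth inside a tight set left by an arc of the rest does not increase the number of essential
sets. -/
theorem stepX_rE (hs : D.Step b X T i e) (hv : D.Valid k X T)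
    (hv' : D.Valid k (X.erase e) (gr T i (D.u e))) (hL : D.Tight k X T L) (hd : 0 < D.d X L)
    (hm : i ∈ mt T L) (hu : D.u e ∈ L) (hj : D.j e ∈ L) :
    D.rE κ (X.erase e) (gr T i (D.u e)) ≤ D.rE κ X T := by
  have hex : ∀ K', D.Ess κ (X.erase e) (gr T i (D.u e)) K' → ∃ K0, D.Ess κ X T K0 ∧
      (D.u e ∈ K' → D.u e ∈ K0) ∧ (D.u e ∉ K' → K0 = K') := by
    intro K' hK'
    by_cases hu' : D.u e ∈ K'
    · obtain ⟨K0, h1, h2⟩ := stepX_old hs hv hv' hL hd hm hu hj hK' hu'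
      exact ⟨K0, h2, fun _ => h1 hu', fun h => absurd hu' h⟩
    · refine ⟨K', ⟨ssc_old' hs.mem hK'.1 hu', fun c => ?_⟩, fun h => absurd h hu', fun _ => rfl⟩
      obtain ⟨i', h1, h2⟩ := hK'.2 c
      rw [mt_gr, if_neg hu'] at h2
      exact ⟨i', h1, h2⟩
  choose! g hg1 hg2 hg3 using hex
  unfold rE
  refine card_le_card_of_injOn g ?_ ?_
  · intro K' hK'
    have h5 := mem_coe.1 hK'
    rw [mem_filter] at h5
    exact mem_coe.2 (mem_filter.2 ⟨mem_univ _, hg1 K' h5.2⟩)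
  · intro K1 hK1 K2 hK2 heq
    have h1 := (mem_filter.1 (mem_coe.1 hK1)).2
    have h2 := (mem_filter.1 (mem_coe.1 hK2)).2
    by_cases hu1 : D.u e ∈ K1
    · by_cases hu2 : D.u e ∈ K2
      · exact ssc_eq h1.1 h2.1 ⟨D.u e, mem_inter.2 ⟨hu1, hu2⟩⟩
      · exfalso
        have h3 := hg2 K1 h1 hu1
        rw [heq, hg3 K2 h2 hu2] at h3
        exact hu2 h3
    · by_cases hu2 : D.u e ∈ K2
      · exfalso
        have h3 := hg2 K2 h2 hu2
        rw [← heq, hg3 K1 h1 hu1] at h3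
        exact hu1 h3
      · rw [← hg3 K1 h1 hu1, heq, hg3 K2 h2 hu2]

/-- New tight sets are contained in old tight sets. -/
theorem step_rel (hs : D.Step b X T i e) (hv' : D.Valid k (X.erase e) (gr T i (D.u e)))
    (hL : D.Tight k X T L) (hm : i ∈ mt T L) (hu : D.u e ∈ L) (hj : D.j e ∈ L) (x y : V)
    (h : D.rel k (X.erase e) (gr T i (D.u e)) x y) : D.rel k X T x y := by
  obtain ⟨U, hU, hx, hy⟩ := h
  have h1 := step_h hs hU.1
  by_cases h2 : (D.u e ∈ U ∧ D.j e ∉ U) ∧ i ∈ mt T U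
  · obtain ⟨ht, -, -⟩ := stepX_tight hs hL hm hu hj
    obtain ⟨-, h3, -⟩ := tight_inter hv' hU ht ⟨D.u e, mem_inter.2 ⟨h2.1.1, hu⟩⟩
    have h4 := step_h hs h3.1
    rw [if_neg (fun h => h.1.2 (mem_union_right _ hj)), h3.2] at h4
    exact ⟨U ∪ L, ⟨h3.1, by omega⟩, mem_union_left _ hx, mem_union_left _ hy⟩
  · rw [if_neg h2, hU.2] at h1
    exact ⟨U, ⟨hU.1, by omega⟩, hx, hy⟩

end Dat

end Pool.Agent.Dts
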