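import Pool.Agent.Dts.ClaimA
import Pool.Agent.Dts.StepX

/-!
In an extremal system, a path which meets a maximal tight set met by paths of both kinds ends in
this set.
-/

namespace Pool.Agent.Dts

open Finset

open scoped Classical

namespace Dat

variable {V A I : Type*} [Fintype V] [Fintype A] [Fintype I]
variable {D : Dat V A} {S X Y : Finset A} {L W : Finset V} {k : ℕ} {κ : I → Bool}
  {p p' : I → List A} {T : I → Finset V} {i : I}

theorem rel_iff_of (hX : D.rE κ (rest S p') (D.tt p') ≤ D.rE κ (rest S p) (D.tt p))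
    (hp : D.Extr k κ S p) (hp' : D.Sys k κ S p')
    (hrel : ∀ x y, D.rel k (rest S p') (D.tt p') x y → D.rel k (rest S p) (D.tt p) x y) :
    D.rE κ (rest S p') (D.tt p') = D.rE κ (rest S p) (D.tt p) ∧
    D.nE k (rest S p') (D.tt p') = D.nE k (rest S p) (D.tt p) ∧
    ∀ x y, D.rel k (rest S p') (D.tt p') x y ↔ D.rel k (rest S p) (D.tt p) x y := by
  have hmin := hp.2 p' hp'
  have hr : D.rE κ (rest S p') (D.tt p') = D.rE κ (rest S p) (D.tt p) := by
    refine le_antisymm hX ?_
    by_contra h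
    exact hmin (Or.inl (not_le.1 h))
  have hsub : ((univ : Finset (V × V)).filter fun q => D.rel k (rest S p') (D.tt p') q.1 q.2) ⊆
      (univ : Finset (V × V)).filter fun q => D.rel k (rest S p) (D.tt p) q.1 q.2 := by
    intro q hq
    rw [mem_filter] at hq ⊢
    exact ⟨hq.1, hrel _ _ hq.2⟩
  have hn : D.nE k (rest S p') (D.tt p') = D.nE k (rest S p) (D.tt p) := by
    refine le_antisymm (card_le_card hsub) ?_
    by_contra h
    exact hmin (Or.inr ⟨hr, Or.inl (not_le.1 h)⟩)
  refine ⟨hr, hn, fun x y => ⟨hrel x y, fun h => ?_⟩⟩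
  have heq := eq_of_subset_of_card_le hsub hn.ge
  have h1 : (x, y) ∈ (univ : Finset (V × V)).filter fun q =>
      D.rel k (rest S p) (D.tt p) q.1 q.2 := mem_filter.2 ⟨mem_univ _, h⟩
  rw [← heq, mem_filter] at h1
  exact h1.2

theorem nu_congr {b : Bool} {q : List A} {X X' : Finset A} {T T' : I → Finset V}
    (h : ∀ x y, D.rel k X' T' x y ↔ D.rel k X T x y) : D.nu k X' T' b q = D.nu k X T b q := by
  unfold nu
  congr 1
  ext n
  simp only [Set.mem_ofPred_eq, h]

theorem nu_le {b : Bool} {q : List A} {X : Finset A} {T : I → Finset V} {m : ℕ}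
    (h : ∀ e ∈ q.drop m, D.rel k X T (D.u e) (D.en (D.t b) q)) : D.nu k X T b q ≤ m :=
  Nat.sInf_le h

theorem nu_mem (b : Bool) (q : List A) (X : Finset A) (T : I → Finset V) :
    ∀ e ∈ q.drop (D.nu k X T b q), D.rel k X T (D.u e) (D.en (D.t b) q) := by
  have h : D.nu k X T b q ∈ {n | ∀ e ∈ q.drop n, D.rel k X T (D.u e) (D.en (D.t b) q)} :=
    Nat.sInf_mem ⟨q.length, by
      intro e he
      rw [List.drop_length] at he
      simp at he⟩
  exact h

/-- Invariants of the growth inside the tight set `L`. -/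
structure InvB (D : Dat V A) (k : ℕ) (κ : I → Bool) (S : Finset A) (p : I → List A) (L : Finset V)
    (i : I) (X : Finset A) (T : I → Finset V) : Prop where
  val : D.Valid k X T
  r : D.rE κ X T ≤ D.rE κ (rest S p) (D.tt p)
  tight : D.Tight k X T L
  mem : i ∈ mt T L
  rel : ∀ x y, D.rel k X T x y → D.rel k (rest S p) (D.tt p) x y
  mix : ∀ b, ∃ i', κ i' = b ∧ i' ∈ mt T L
  alt : 0 < D.d X L ∨ ∃ K, K ⊆ L ∧ D.Ess κ X T K ∧ i ∈ mt T K

theorem invB_step (hk : 1 ≤ k) (hc : Cnt κ k) (h : InvB D k κ S p L i X T) (hkd : D.Kd κ T)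
    (hW : ∀ x ∈ T i, D.R x (D.t (κ i)) ∧ ¬ D.C x) :
    ∃ e, D.Step (κ i) X T i e ∧ D.u e ∈ L ∧ InvB D k κ S p L i (X.erase e) (gr T i (D.u e)) := by
  by_cases hd : 0 < D.d X L
  · obtain ⟨x, hxL, hxC⟩ := tight_mixed hk h.val hkd h.tight h.mix
    obtain ⟨e, he, heu, hej, hev⟩ := grow_tight h.val h.tight h.mem ⟨x, hxL, mem_N_of_C hxC hW⟩
    obtain ⟨h1, h2, h3⟩ := stepX_tight he h.tight h.mem heu hej
    refine ⟨e, he, heu, hev, (stepX_rE he h.val hev h.tight hd h.mem heu hej).trans h.r, h1, ?_,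
      fun x y hxy => h.rel x y (step_rel he hev h.tight h.mem heu hej x y hxy), ?_, Or.inl ?_⟩
    · rw [h3]
      exact h.mem
    · rw [h3]
      exact h.mix
    · rw [h2]
      exact hd
  · obtain ⟨K, hKL, hK, hm⟩ := h.alt.resolve_left hd
    obtain ⟨x, hxK, hxC⟩ := ess_C h.val hkd hc hK
    obtain ⟨e, he, heu, hej, hev⟩ := grow_ssc h.val hK.1 hm ⟨x, hxK, mem_N_of_C hxC hW⟩
    obtain ⟨h1, h2, h3⟩ := stepX_tight he h.tight h.mem (hKL heu) (hKL hej)
    obtain ⟨h4, K', h5, h6, h7⟩ := stepK he hK hm heu hej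
    refine ⟨e, he, hKL heu, hev, h4.trans h.r, h1, ?_,
      fun x y hxy => h.rel x y (step_rel he hev h.tight h.mem (hKL heu) (hKL hej) x y hxy), ?_,
      Or.inr ⟨K', h5.trans hKL, h6, h7⟩⟩
    · rw [h3]
      exact h.mem
    · rw [h3]
      exact h.mix

/-- A tight set left by no arc of the rest and met by trees of both kinds contains an essential set
met by the same trees. -/
theorem exists_ess (hc : Cnt κ k) (hv : D.Valid k X T) (hL : D.Tight k X T L) (hd : D.d X L = 0)
    (hmix : ∀ b, ∃ i', κ i' = b ∧ i' ∈ mt T L) : ∃ K, K ⊆ L ∧ D.Ess κ X T K ∧ mt T K = mt T L := by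
  obtain ⟨K, hKL, hK⟩ := exists_ssc ⟨hL.1, hd⟩
  have h1 := tight_card hL
  have h2 : k ≤ (mt T K).card := zz_card hv hK.1
  have h3 : mt T K = mt T L := eq_of_subset_of_card_le (mt_mono T hKL) (h1.trans h2)
  refine ⟨K, hKL, ⟨hK, fun b => ?_⟩, h3⟩
  by_contra hcon
  push Not at hcon
  obtain ⟨i', hi', hm'⟩ := hmix (!b)
  have h4 : insert i' ((univ : Finset I).filter fun i => κ i = b) ⊆ mt T L := by
    intro x hx
    rcases mem_insert.1 hx with rfl | hx
    · exact hm'
    · rw [← h3]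
      exact hcon x (mem_filter.1 hx).2
  have h5 := card_le_card h4
  rw [card_insert_of_notMem, hc b] at h5
  · omega
  · rw [mem_filter, hi']
    simp

theorem claimB (hp : D.Extr k κ S p) (hk : 1 ≤ k) (hc : Cnt κ k)
    (hL : D.Tight k (rest S p) (D.tt p) L)
    (hmax : ∀ Y, D.Tight k (rest S p) (D.tt p) Y → L ⊆ Y → Y = L)
    (hmix : ∀ b, ∃ i, κ i = b ∧ i ∈ mt (D.tt p) L) (i : I) (hi : i ∈ mt (D.tt p) L) :
    D.en (D.t (κ i)) (p i) ∈ L := by
  by_contra hend
  have hS := hp.1
  obtain ⟨x, hx, hxL⟩ := (mt_iff _ _ _).1 hi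
  obtain ⟨e', he', rfl⟩ := mem_tl.1 hx
  obtain ⟨q, e, q2, hq0, he, hn⟩ := split_last (fun e => D.u e ∈ L) (p i) ⟨e', he', hxL⟩
  have hq : p i = (q ++ [e]) ++ q2 := by rw [hq0]; simp
  have hq2 : q2 ≠ [] := by
    rintro rfl
    rw [hq, List.append_nil, en_concat] at hend
    exact hend he
  have hdrp := hS.trunc i hq
  have hYL : ∀ f ∈ q2.toFinset, D.u f ∉ L := fun f hf => hn f (List.mem_toFinset.1 hf)
  -- the truncated state
  have hmem : i ∈ mt (Function.update (D.tt p) i (D.tl (q ++ [e]))) L := by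
    rw [mt_iff, Function.update_self]
    exact ⟨D.u e, mem_tl.2 ⟨e, by simp, rfl⟩, he⟩
  have hmt : mt (Function.update (D.tt p) i (D.tl (q ++ [e]))) L = mt (D.tt p) L := by
    refine Subset.antisymm (mt_update_subset hdrp.sub _) fun i' hi' => ?_
    by_cases h1 : i' = i
    · rw [h1]
      exact hmem
    · rw [mt_iff] at hi' ⊢
      rw [Function.update_of_ne h1]
      exact hi'
  have hdL : D.d (rest S p ∪ q2.toFinset) L = D.d (rest S p) L := d_add_eq hdrp.dis hYL
  have htight : D.Tight k (rest S p ∪ q2.toFinset)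
      (Function.update (D.tt p) i (D.tl (q ++ [e]))) L := by
    refine ⟨hL.1, ?_⟩
    unfold h
    rw [hmt, hdL]
    exact hL.2
  have hval := drop_valid hdrp hS.val
  have hstart : InvB D k κ S p L i (rest S p ∪ q2.toFinset)
      (Function.update (D.tt p) i (D.tl (q ++ [e]))) := by
    refine ⟨hval, drop_rE hdrp, htight, hmem, ?_, ?_, ?_⟩
    · rintro x y ⟨U, hU, hx, hy⟩
      exact ⟨U, drop_tight hdrp hS.val hU, hx, hy⟩
    · rw [hmt]
      exact hmix
    · by_cases hd : 0 < D.d (rest S p ∪ q2.toFinset) L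
      · exact Or.inl hd
      · obtain ⟨K, h1, h2, h3⟩ := exists_ess hc hval htight (by omega) (by rw [hmt]; exact hmix)
        exact Or.inr ⟨K, h1, h2, by rw [h3]; exact hmem⟩
  obtain ⟨X, W, n, l, p', hinv, hp'eq, hp', hlL, hr, hrel⟩ := reend (L := L) hS i hq hq2
    (fun X W => InvB D k κ S p L i X (Function.update (D.tt p) i W))
    (fun X W h => h.val)
    (by
      intro X W h hW
      have hkd := kd_update (i := i) hS.kd fun x hx => (hW x hx).1
      obtain ⟨g, hg, hgu, hgv⟩ := invB_step hk hc h hkd (by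
        rw [Function.update_self]
        exact hW)
      have hgN := hg.uN
      have hgN' := hg.jN
      rw [Function.update_self] at hgN hgN'
      rw [gr_update] at hgv
      exact ⟨g, hg.mem, hgu, hgN, hgN', hgv⟩)
    hstart
  obtain ⟨h1, h2, h3⟩ := rel_iff_of (hr.trans hinv.r) hp hp'
    (fun x y hxy => hinv.rel x y (hrel x y hxy))
  -- the third potential decreases
  have hpi : p' i = (q ++ [e]).take n ++ l := by
    rw [hp'eq]
    exact Function.update_self _ _ _
  have hpi' : ∀ i', i' ≠ i → p' i' = p i' := fun i' h => by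
    rw [hp'eq]
    exact Function.update_of_ne h _ _
  have hqC : ∀ f ∈ q ++ [e], ¬ D.C (D.u f) := by
    intro f hf
    obtain ⟨-, -, q', e', hqe, hqC, -⟩ := hS.pth i
    rcases List.eq_nil_or_concat q2 with h | ⟨q3, e3, h⟩
    · exact absurd h hq2
    · rw [List.concat_eq_append] at h
      rw [hq, h, ← List.append_assoc] at hqe
      have := List.append_inj_left' hqe rfl
      exact hqC f (by rw [← this]; exact List.mem_append_left _ hf)
  have hlne : l ≠ [] := by
    rintro rfl
    obtain ⟨-, -, q', e', hqe, -, hC⟩ := hp'.pth i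
    rw [hpi, List.append_nil] at hqe
    refine hqC e' (List.mem_of_mem_take (i := n) ?_) hC
    rw [hqe]
    simp
  have hend' : D.en (D.t (κ i)) (p' i) ∈ L := by
    rcases List.eq_nil_or_concat l with h | ⟨l', g, h⟩
    · exact absurd h hlne
    · rw [List.concat_eq_append] at h
      rw [hpi, h, ← List.append_assoc, en_concat]
      exact hlL g (by rw [h]; simp)
  have hrelL : ∀ x ∈ L, ∀ y ∈ L, D.rel k (rest S p) (D.tt p) x y := fun x hx y hy =>
    ⟨L, hL, hx, hy⟩
  have hnu' : D.nu k (rest S p') (D.tt p') (κ i) (p' i) ≤ q.length := by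
    refine nu_le fun f hf => (h3 _ _).2 (hrelL _ ?_ _ hend')
    rw [hpi, List.drop_append, List.mem_append] at hf
    rcases hf with hf | hf
    · rw [List.drop_take] at hf
      have h4 := List.mem_of_mem_take hf
      rw [List.drop_left] at h4
      rw [List.mem_singleton.1 h4]
      exact he
    · exact hlL f (List.mem_of_mem_drop hf)
  have hnu : q.length < D.nu k (rest S p) (D.tt p) (κ i) (p i) := by
    by_contra hcon
    push Not at hcon
    have h4 := nu_mem (D := D) (k := k) (κ i) (p i) (rest S p) (D.tt p)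
    have h5 : e ∈ (p i).drop (D.nu k (rest S p) (D.tt p) (κ i) (p i)) := by
      generalize D.nu k (rest S p) (D.tt p) (κ i) (p i) = m at hcon
      rw [hq0, List.drop_append_of_le_length hcon]
      simp
    obtain ⟨U, hU, hUe, hUend⟩ := h4 e h5
    obtain ⟨-, h6, -⟩ := tight_inter hS.val hU hL ⟨D.u e, mem_inter.2 ⟨hUe, he⟩⟩
    have h7 := hmax _ h6 subset_union_right
    exact hend (h7 ▸ mem_union_left _ hUend)
  refine hp.2 p' hp' (Or.inr ⟨h1, Or.inr ⟨h2, ?_⟩⟩)
  refine sum_lt_sum (fun i' _ => ?_) ⟨i, mem_univ _, lt_of_le_of_lt hnu' hnu⟩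
  by_cases h4 : i' = i
  · rw [h4]
    exact (lt_of_le_of_lt hnu' hnu).le
  · rw [hpi' i' h4, nu_congr h3]

end Dat

end Pool.Agent.Dts
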