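import Mathlib

/-!
Packing dijoins in a digraph with two sink components: definitions.

The digraph has arcs `e` from `u e` to `j e`; `R x y` says that `x` reaches `y`; every vertex
reaches `t false` or `t true`, and neither of these two reaches the other. The sets considered are
closed under predecessors. A state is a set `X` of arcs (the rest) and a family `T` of vertex sets
(the tails of the arcs of the trees).
-/

namespace Pool.Agent.Dts

open Finset

open scoped Classical

noncomputable section

structure Dat (V A : Type*) where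
  u : A → V
  j : A → V
  R : V → V → Prop
  t : Bool → V
  refl : ∀ x, R x x
  trans : ∀ x y z, R x y → R y z → R x z
  arc : ∀ e, R (u e) (j e)
  sink : ∀ x, ∃ b, R x (t b)
  ind : ∀ b, ¬ R (t b) (t (!b))

variable {V A I : Type*} [Fintype V] [Fintype A] [Fintype I]

/-- The trees with a tail in `U`. -/
def mt (T : I → Finset V) (U : Finset V) : Finset I := univ.filter fun i => (T i ∩ U).Nonempty

/-- The tree `i` gets the tail `x`. -/
def gr (T : I → Finset V) (i : I) (x : V) : I → Finset V := Function.update T i (insert x (T i))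

/-- There are `k` indices of each kind. -/
def Cnt (κ : I → Bool) (k : ℕ) : Prop := ∀ b, ((univ : Finset I).filter fun i => κ i = b).card = k

/-- The arcs of `S` in no path. -/
def rest (S : Finset A) (p : I → List A) : Finset A := S.filter fun e => ∀ i, e ∉ p i

/-- Lexicographic order of the potentials. -/
def lt3 (a b : ℕ × ℕ × ℕ) : Prop :=
  a.1 < b.1 ∨ (a.1 = b.1 ∧ (a.2.1 < b.2.1 ∨ (a.2.1 = b.2.1 ∧ a.2.2 < b.2.2)))

namespace Dat

variable (D : Dat V A)

/-- `x` reaches both sinks. -/
def C (x : V) : Prop := ∀ b, D.R x (D.t b)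

/-- No arc enters `U`. -/
def Up (U : Finset V) : Prop := ∀ x y, D.R x y → y ∈ U → x ∈ U

/-- Nonempty sets containing no sink, entered by no arc. -/
def L0 (U : Finset V) : Prop := U.Nonempty ∧ D.Up U ∧ ∀ b, D.t b ∉ U

/-- The number of arcs of `X` leaving `U`. -/
def d (X : Finset A) (U : Finset V) : ℕ := (X.filter fun e => D.u e ∈ U ∧ D.j e ∉ U).card

def h (X : Finset A) (T : I → Finset V) (U : Finset V) : ℕ := D.d X U + (mt T U).card

def Valid (k : ℕ) (X : Finset A) (T : I → Finset V) : Prop := ∀ U, D.L0 U → k ≤ D.h X T U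

def Tight (k : ℕ) (X : Finset A) (T : I → Finset V) (U : Finset V) : Prop :=
  D.L0 U ∧ D.h X T U = k

/-- Sets of `L0` left by no arc of `X`. -/
def ZZ (X : Finset A) (U : Finset V) : Prop := D.L0 U ∧ D.d X U = 0

/-- Minimal such sets. -/
def SSC (X : Finset A) (K : Finset V) : Prop := D.ZZ X K ∧ ∀ Z, D.ZZ X Z → Z ⊆ K → Z = K

/-- Minimal such sets not met by all trees of one kind. -/
def Ess (κ : I → Bool) (X : Finset A) (T : I → Finset V) (K : Finset V) : Prop :=
  D.SSC X K ∧ ∀ b, ∃ i, κ i = b ∧ i ∉ mt T K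

/-- The number of essential sets. -/
def rE (κ : I → Bool) (X : Finset A) (T : I → Finset V) : ℕ :=
  ((univ : Finset (Finset V)).filter fun K => D.Ess κ X T K).card

/-- `x` and `y` are in a common tight set. -/
def rel (k : ℕ) (X : Finset A) (T : I → Finset V) (x y : V) : Prop :=
  ∃ U, D.Tight k X T U ∧ x ∈ U ∧ y ∈ U

def nE (k : ℕ) (X : Finset A) (T : I → Finset V) : ℕ :=
  ((univ : Finset (V × V)).filter fun q => D.rel k X T q.1 q.2).card

/-- The vertices reached neither from `t b` nor from a vertex of `W`. -/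
def N (b : Bool) (W : Finset V) : Finset V :=
  univ.filter fun x => ¬ D.R (D.t b) x ∧ ∀ y ∈ W, ¬ D.R y x

/-- The arc `e` of `X` can be added to the tree `i`, of kind `b`. -/
structure Step (b : Bool) (X : Finset A) (T : I → Finset V) (i : I) (e : A) : Prop where
  mem : e ∈ X
  uN : D.u e ∈ D.N b (T i)
  jN : D.j e ∉ D.N b (T i)

/-- The tails of trees of kind `b` reach `t b`. -/
def Kd (κ : I → Bool) (T : I → Finset V) : Prop := ∀ i, ∀ x ∈ T i, D.R x (D.t (κ i))

/-- The list is a walk (backwards) starting at `x`. -/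
def Fol : V → List A → Prop
  | _, [] => True
  | x, e :: l => D.R x (D.j e) ∧ Fol (D.u e) l

/-- Its end. -/
def en : V → List A → V
  | x, [] => x
  | _, e :: l => en (D.u e) l

/-- The tails of a list of arcs. -/
def tl (p : List A) : Finset V := (p.map D.u).toFinset

/-- A path of kind `b`. -/
def Pth (b : Bool) (p : List A) : Prop :=
  D.Fol (D.t b) p ∧ p.Nodup ∧ ∃ q e, p = q ++ [e] ∧ (∀ f ∈ q, ¬ D.C (D.u f)) ∧ D.C (D.u e)

/-- The tails of the paths. -/
def tt (p : I → List A) (i : I) : Finset V := D.tl (p i)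

structure Sys (k : ℕ) (κ : I → Bool) (S : Finset A) (p : I → List A) : Prop where
  sub : ∀ i, ∀ e ∈ p i, e ∈ S
  dis : ∀ i i', i ≠ i' → ∀ e ∈ p i, e ∉ p i'
  pth : ∀ i, D.Pth (κ i) (p i)
  val : D.Valid k (rest S p) (D.tt p)

/-- The least `n` such that the tails of the arcs from the `n`-th on are in a common tight set with
the end. -/
def nu (k : ℕ) (X : Finset A) (T : I → Finset V) (b : Bool) (p : List A) : ℕ :=
  sInf {n | ∀ e ∈ p.drop n, D.rel k X T (D.u e) (D.en (D.t b) p)}

/-- The three potentials of a system. -/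
def pot (k : ℕ) (κ : I → Bool) (S : Finset A) (p : I → List A) : ℕ × ℕ × ℕ :=
  (D.rE κ (rest S p) (D.tt p), D.nE k (rest S p) (D.tt p),
    ∑ i, D.nu k (rest S p) (D.tt p) (κ i) (p i))

def Extr (k : ℕ) (κ : I → Bool) (S : Finset A) (p : I → List A) : Prop :=
  D.Sys k κ S p ∧ ∀ p', D.Sys k κ S p' → ¬ lt3 (D.pot k κ S p') (D.pot k κ S p)

end Dat

end

end Pool.Agent.Dts
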