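import Pool.Agent.Dts.Sub

/-!
Arcs of one tree are returned to the rest.
-/

namespace Pool.Agent.Dts

open Finset

open scoped Classical

namespace Dat

variable {V A I : Type*} [Fintype V] [Fintype A] [Fintype I]
variable {D : Dat V A} {X Y : Finset A} {T : I → Finset V} {U K W : Finset V} {k : ℕ} {i : I}
  {κ : I → Bool}

/-- The arcs `Y` are dropped from the tree `i`, `W` is its new set of tails: every set of `L0`
met before and not after is left by a dropped arc. -/
structure Drp (D : Dat V A) (X Y : Finset A) (T : I → Finset V) (i : I) (W : Finset V) : Prop where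
  dis : Disjoint X Y
  sub : W ⊆ T i
  lv : ∀ U, D.L0 U → i ∈ mt T U → (∀ x ∈ W, x ∉ U) → ∃ e ∈ Y, D.u e ∈ U ∧ D.j e ∉ U

theorem drop_mt_ne {i' : I} (h : i' ≠ i) (hi : i' ∈ mt T U) :
    i' ∈ mt (Function.update T i W) U := by
  rw [mt_iff] at hi ⊢
  rw [Function.update_of_ne h]
  exact hi

theorem drop_h (hd : D.Drp X Y T i W) (hU : D.L0 U) :
    D.h X T U ≤ D.h (X ∪ Y) (Function.update T i W) U := by
  unfold h
  rw [d_union hd.dis]
  by_cases hc : i ∈ mt T U ∧ ∀ x ∈ W, x ∉ U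
  · obtain ⟨e, he, hu, hj⟩ := hd.lv U hU hc.1 hc.2
    have h1 : 0 < D.d Y U := card_pos.2 ⟨e, mem_filter.2 ⟨he, hu, hj⟩⟩
    have h2 : mt T U ⊆ insert i (mt (Function.update T i W) U) := by
      intro i' hi'
      rw [mem_insert]
      by_cases h : i' = i
      · exact Or.inl h
      · exact Or.inr (drop_mt_ne h hi')
    have h3 := card_le_card h2
    have h4 := card_insert_le i (mt (Function.update T i W) U)
    omega
  · have h2 : mt T U ⊆ mt (Function.update T i W) U := by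
      intro i' hi'
      by_cases h : i' = i
      · subst h
        rw [not_and] at hc
        have h3 := hc hi'
        push Not at h3
        obtain ⟨x, hx, hxU⟩ := h3
        rw [mt_iff, Function.update_self]
        exact ⟨x, hx, hxU⟩
      · exact drop_mt_ne h hi'
    have h3 := card_le_card h2
    omega

theorem drop_valid (hd : D.Drp X Y T i W) (hv : D.Valid k X T) :
    D.Valid k (X ∪ Y) (Function.update T i W) :=
  fun U hU => (hv U hU).trans (drop_h hd hU)

theorem drop_tight (hd : D.Drp X Y T i W) (hv : D.Valid k X T)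
    (hU : D.Tight k (X ∪ Y) (Function.update T i W) U) : D.Tight k X T U := by
  refine ⟨hU.1, le_antisymm ?_ (hv U hU.1)⟩
  have h1 := drop_h hd hU.1
  have h2 := hU.2
  omega

theorem drop_ess (hd : D.Drp X Y T i W) {K' : Finset V}
    (h : D.Ess κ (X ∪ Y) (Function.update T i W) K') : ∃ K0, K0 ⊆ K' ∧ D.Ess κ X T K0 := by
  obtain ⟨K0, h1, h2⟩ := exists_ssc (zz_mono subset_union_left h.1.1)
  refine ⟨K0, h1, h2, fun b => ?_⟩
  obtain ⟨i', hb, hi'⟩ := h.2 b
  refine ⟨i', hb, fun hc => hi' ?_⟩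
  have h3 : i' ∈ mt T K' := mt_mono T h1 hc
  by_cases he : i' = i
  · subst he
    by_contra hn
    have h4 : ∀ x ∈ W, x ∉ K' := by
      intro x hx hxK
      apply hn
      rw [mt_iff, Function.update_self]
      exact ⟨x, hx, hxK⟩
    obtain ⟨e, he, hu, hj⟩ := hd.lv K' h.1.1.1 h3 h4
    exact hj (d_zero_iff.1 h.1.1.2 e (mem_union_right _ he) hu)
  · exact drop_mt_ne he h3

theorem drop_rE (hd : D.Drp X Y T i W) :
    D.rE κ (X ∪ Y) (Function.update T i W) ≤ D.rE κ X T := by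
  have hf0 : ∀ K', D.Ess κ (X ∪ Y) (Function.update T i W) K' →
      ∃ K0, K0 ⊆ K' ∧ D.Ess κ X T K0 := fun K' h => drop_ess hd h
  choose! f hf using hf0
  unfold rE
  refine card_le_card_of_injOn f ?_ ?_
  · intro K' hK'
    have h := (mem_filter.1 (mem_coe.1 hK')).2
    exact mem_coe.2 (mem_filter.2 ⟨mem_univ _, (hf K' h).2⟩)
  · intro K1 h1 K2 h2 he
    have g1 := (mem_filter.1 (mem_coe.1 h1)).2
    have g2 := (mem_filter.1 (mem_coe.1 h2)).2
    obtain ⟨x, hx⟩ := (hf K1 g1).2.1.1.1.1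
    have hx2 : x ∈ f K2 := by
      rw [← he]
      exact hx
    exact ssc_eq g1.1 g2.1 ⟨x, mem_inter.2 ⟨(hf K1 g1).1 hx, (hf K2 g2).1 hx2⟩⟩

theorem drop_rE_lt (hd : D.Drp X Y T i W) (hK : D.Ess κ X T K)
    (h : ∀ K', D.SSC (X ∪ Y) K' → ¬ K ⊆ K') :
    D.rE κ (X ∪ Y) (Function.update T i W) < D.rE κ X T := by
  have hf0 : ∀ K', D.Ess κ (X ∪ Y) (Function.update T i W) K' →
      ∃ K0, K0 ⊆ K' ∧ D.Ess κ X T K0 := fun K' h => drop_ess hd h
  choose! f hf using hf0
  unfold rE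
  refine lt_of_le_of_lt (card_le_card_of_injOn f (t := (univ.filter
    fun K => D.Ess κ X T K).erase K) ?_ ?_)
    (card_erase_lt_of_mem (mem_filter.2 ⟨mem_univ _, hK⟩))
  · intro K' hK'
    have g := (mem_filter.1 (mem_coe.1 hK')).2
    refine mem_coe.2 (mem_erase.2 ⟨fun he => ?_, mem_filter.2 ⟨mem_univ _, (hf K' g).2⟩⟩)
    have h2 := (hf K' g).1
    rw [he] at h2
    exact h K' g.1 h2
  · intro K1 h1 K2 h2 he
    have g1 := (mem_filter.1 (mem_coe.1 h1)).2
    have g2 := (mem_filter.1 (mem_coe.1 h2)).2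
    obtain ⟨x, hx⟩ := (hf K1 g1).2.1.1.1.1
    have hx2 : x ∈ f K2 := by
      rw [← he]
      exact hx
    exact ssc_eq g1.1 g2.1 ⟨x, mem_inter.2 ⟨(hf K1 g1).1 hx, (hf K2 g2).1 hx2⟩⟩

end Dat

end Pool.Agent.Dts
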