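import Pool.Agent.Dts.Path

/-!
Completion of a walk by repeated growth, and extraction of a path.
-/

namespace Pool.Agent.Dts

open Finset

open scoped Classical

namespace Dat

variable {V A I : Type*} [Fintype V] [Fintype A] [Fintype I]
variable {D : Dat V A} {X X0 : Finset A} {L : Finset V} {b : Bool} {q : List A}

/-- The invariants of the growth. -/
structure Eng (D : Dat V A) (L : Finset V) (b : Bool) (q : List A) (X0 X : Finset A)
    (W : Finset V) : Prop where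
  sub : X ⊆ X0
  kd : ∀ x ∈ W, D.R x (D.t b) ∧ ¬ D.C x
  rooted : ∀ U, D.Up U → D.t b ∉ U → (∃ x ∈ W, x ∈ U) →
    ∃ e, (e ∈ q ∨ (e ∈ X0 ∧ e ∉ X)) ∧ D.u e ∈ U ∧ D.j e ∉ U
  path : ∀ x, (x = D.t b ∨ x ∈ W) → ∃ n l, D.Fol (D.t b) (q.take n ++ l) ∧
    D.en (D.t b) (q.take n ++ l) = x ∧ l.Nodup ∧ (∀ e ∈ l, e ∈ X0 ∧ e ∉ X) ∧
    (∀ e ∈ l, D.u e ∈ L) ∧ D.tl (q.take n ++ l) ⊆ W

theorem reach_of_not {x y : V} (h : D.R x y) (hx : D.R x (D.t b) ∧ ¬ D.C x) : D.R y (D.t b) := by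
  obtain ⟨c, hc⟩ := D.sink y
  by_cases hcb : c = b
  · rw [← hcb]
    exact hc
  · exfalso
    refine hx.2 fun a => ?_
    by_cases hab : a = b
    · rw [hab]
      exact hx.1
    · have : a = c := by
        cases a <;> cases b <;> cases c <;> simp_all
      rw [this]
      exact D.trans _ _ _ h hc

theorem reach_of_root {y : V} (h : D.R (D.t b) y) : D.R y (D.t b) := by
  obtain ⟨c, hc⟩ := D.sink y
  by_cases hcb : c = b
  · rw [← hcb]
    exact hc
  · exfalso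
    have : c = !b := by
      cases b <;> cases c <;> simp_all
    rw [this] at hc
    exact D.ind b (D.trans _ _ _ h hc)

theorem not_C_root (D : Dat V A) (b : Bool) : ¬ D.C (D.t b) := fun h => D.ind b (h (!b))

/-- The tails of a path of kind `b` reach `t b`. -/
theorem fol_reach {x : V} (hx : D.R x (D.t b) ∧ ¬ D.C x) {l : List A} (hl : D.Fol x l)
    (h : ∀ f ∈ l, ¬ D.C (D.u f)) : ∀ e ∈ l, D.R (D.u e) (D.t b) := by
  induction l generalizing x with
  | nil => intro e he; simp at he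
  | cons f l ih =>
    have h1 : D.R (D.u f) (D.t b) := D.trans _ _ _ (D.arc f) (reach_of_not hl.1 hx)
    intro e he
    rcases List.mem_cons.1 he with rfl | he
    · exact h1
    · exact ih ⟨h1, h f (by simp)⟩ hl.2 (fun g hg => h g (List.mem_cons_of_mem _ hg)) e he

theorem eng_start (hq : D.Fol (D.t b) q) (hqC : ∀ e ∈ q, ¬ D.C (D.u e)) :
    D.Eng L b q X0 X0 (D.tl q) := by
  refine ⟨Subset.refl _, ?_, ?_, ?_⟩
  · intro x hx
    obtain ⟨e, he, rfl⟩ := mem_tl.1 hx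
    exact ⟨fol_reach ⟨D.refl _, not_C_root D b⟩ hq hqC e he, hqC e he⟩
  · rintro U hU hb ⟨x, hx, hxU⟩
    obtain ⟨e, he, rfl⟩ := mem_tl.1 hx
    obtain ⟨f, hf, hf'⟩ := fol_leave hq hU hb ⟨e, he, hxU⟩
    exact ⟨f, Or.inl hf, hf'⟩
  · rintro x (rfl | hx)
    · exact ⟨0, [], by simp [Fol], by simp [en], by simp, by simp, by simp, by simp [tl]⟩
    · obtain ⟨e, he, rfl⟩ := mem_tl.1 hx
      obtain ⟨l1, l2, hl⟩ := List.append_of_mem he
      refine ⟨(l1 ++ [e]).length, [], ?_, ?_, by simp, by simp, by simp, ?_⟩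
      · have h1 : q.take (l1 ++ [e]).length = l1 ++ [e] := by
          rw [hl, show l1 ++ e :: l2 = (l1 ++ [e]) ++ l2 by simp]
          exact List.take_left
        rw [h1, List.append_nil]
        rw [hl, show l1 ++ e :: l2 = (l1 ++ [e]) ++ l2 by simp] at hq
        exact ((D.fol_append _ _ _).1 hq).1
      · have h1 : q.take (l1 ++ [e]).length = l1 ++ [e] := by
          rw [hl, show l1 ++ e :: l2 = (l1 ++ [e]) ++ l2 by simp]
          exact List.take_left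
        rw [h1, List.append_nil, en_concat]
      · rw [List.append_nil]
        intro y hy
        obtain ⟨f, hf, rfl⟩ := mem_tl.1 hy
        exact mem_tl.2 ⟨f, List.mem_of_mem_take hf, rfl⟩

/-- The new path. -/
theorem eng_path {W : Finset V} (hE : D.Eng L b q X0 X W) {e : A} (he : e ∈ X) (hu : D.u e ∈ L)
    (hj : D.j e ∉ D.N b W) :
    ∃ n l, D.Fol (D.t b) (q.take n ++ (l ++ [e])) ∧ (l ++ [e]).Nodup ∧
      (∀ f ∈ l ++ [e], f ∈ X0 ∧ f ∉ X.erase e) ∧ (∀ f ∈ l ++ [e], D.u f ∈ L) ∧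
      D.tl (q.take n ++ l) ⊆ W := by
  have h1 : ∃ y, (y = D.t b ∨ y ∈ W) ∧ D.R y (D.j e) := by
    rw [mem_N] at hj
    by_contra hc
    push Not at hc
    exact hj ⟨hc _ (Or.inl rfl), fun y hy => hc y (Or.inr hy)⟩
  obtain ⟨y, hy, hyj⟩ := h1
  obtain ⟨n, l, h1, h2, h3, h4, h5, h6⟩ := hE.path y hy
  refine ⟨n, l, ?_, ?_, ?_, ?_, h6⟩
  · rw [← List.append_assoc, fol_append]
    refine ⟨h1, ?_⟩
    rw [h2]
    exact ⟨hyj, trivial⟩
  · rw [List.nodup_append]
    refine ⟨h3, by simp, ?_⟩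
    intro f hf g hg hfg
    rw [List.mem_singleton] at hg
    subst hg
    subst hfg
    exact (h4 f hf).2 he
  · intro f hf
    rw [List.mem_append, List.mem_singleton] at hf
    rcases hf with hf | rfl
    · exact ⟨(h4 f hf).1, fun h => (h4 f hf).2 (mem_of_mem_erase h)⟩
    · exact ⟨hE.sub he, notMem_erase _ _⟩
  · intro f hf
    rw [List.mem_append, List.mem_singleton] at hf
    rcases hf with hf | rfl
    · exact h5 f hf
    · exact hu

theorem eng_rooted {W : Finset V} (hE : D.Eng L b q X0 X W) {e : A} (he : e ∈ X)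
    (hj : D.j e ∉ D.N b W) (U : Finset V) (hU : D.Up U) (hb : D.t b ∉ U)
    (h : ∃ x ∈ insert (D.u e) W, x ∈ U) :
    ∃ f, (f ∈ q ∨ (f ∈ X0 ∧ f ∉ X.erase e)) ∧ D.u f ∈ U ∧ D.j f ∉ U := by
  by_cases h1 : ∃ x ∈ W, x ∈ U
  · obtain ⟨f, hf, hf'⟩ := hE.rooted U hU hb h1
    exact ⟨f, hf.imp id (fun h => ⟨h.1, fun h' => h.2 (mem_of_mem_erase h')⟩), hf'⟩
  · obtain ⟨x, hx, hxU⟩ := h
    rcases mem_insert.1 hx with rfl | hx
    · refine ⟨e, Or.inr ⟨hE.sub he, notMem_erase _ _⟩, hxU, fun hjU => h1 ?_⟩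
      exact met_of_not_mem_N hU hb hjU hj
    · exact absurd ⟨x, hx, hxU⟩ h1

theorem eng_step {W : Finset V} (hE : D.Eng L b q X0 X W) {e : A} (he : e ∈ X) (hu : D.u e ∈ L)
    (hj : D.j e ∉ D.N b W) (hC : ¬ D.C (D.u e)) :
    D.Eng L b q X0 (X.erase e) (insert (D.u e) W) := by
  refine ⟨(erase_subset _ _).trans hE.sub, ?_, eng_rooted hE he hj, ?_⟩
  · intro x hx
    rcases mem_insert.1 hx with rfl | hx
    · refine ⟨?_, hC⟩
      rw [mem_N] at hj
      by_cases h1 : D.R (D.t b) (D.j e)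
      · exact D.trans _ _ _ (D.arc e) (reach_of_root h1)
      · have h2 : ∃ y ∈ W, D.R y (D.j e) := by
          by_contra hc
          push Not at hc
          exact hj ⟨h1, hc⟩
        obtain ⟨y, hy, hyj⟩ := h2
        exact D.trans _ _ _ (D.arc e) (reach_of_not hyj (hE.kd y hy))
    · exact hE.kd x hx
  · rintro x hx
    by_cases hx1 : x = D.t b ∨ x ∈ W
    · obtain ⟨n, l, h1, h2, h3, h4, h5, h6⟩ := hE.path x hx1
      exact ⟨n, l, h1, h2, h3, fun f hf => ⟨(h4 f hf).1, fun h => (h4 f hf).2 (mem_of_mem_erase h)⟩,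
        h5, h6.trans (subset_insert _ _)⟩
    · have hx2 : x = D.u e := by
        rcases hx with rfl | hx
        · exact absurd (Or.inl rfl) hx1
        · rcases mem_insert.1 hx with rfl | hx
          · rfl
          · exact absurd (Or.inr hx) hx1
      obtain ⟨n, l, h1, h2, h3, h4, h5⟩ := eng_path hE he hu hj
      refine ⟨n, l ++ [e], h1, ?_, h2, h3, h4, ?_⟩
      · rw [← List.append_assoc, en_concat, hx2]
      · intro y hy
        obtain ⟨f, hf, rfl⟩ := mem_tl.1 hy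
        rw [← List.append_assoc, List.mem_append, List.mem_singleton] at hf
        rcases hf with hf | rfl
        · exact mem_insert_of_mem (h5 (mem_tl.2 ⟨f, hf, rfl⟩))
        · exact mem_insert_self _ _

theorem engine_aux (Φ : Finset A → Finset V → Prop)
    (hstep : ∀ X W, X ⊆ X0 → Φ X W → (∀ x ∈ W, D.R x (D.t b) ∧ ¬ D.C x) →
      ∃ e ∈ X, D.u e ∈ L ∧ D.u e ∈ D.N b W ∧ D.j e ∉ D.N b W ∧ Φ (X.erase e) (insert (D.u e) W))
    (hqn : q.Nodup) (hqX : ∀ e ∈ q, e ∉ X0) (m : ℕ) :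
    ∀ X W, X.card = m → Φ X W → D.Eng L b q X0 X W →
    ∃ X W n l, Φ X W ∧ X ⊆ X0 ∧ D.Pth b (q.take n ++ l) ∧ (∀ e ∈ l, e ∈ X0 ∧ e ∉ X) ∧
      (∀ e ∈ l, D.u e ∈ L) ∧ D.tl (q.take n ++ l) ⊆ W ∧
      ∀ U, D.Up U → D.t b ∉ U → (∃ x ∈ W, x ∈ U) → (∀ x ∈ D.tl (q.take n ++ l), x ∉ U) →
        ∃ e, (e ∈ q.drop n ∨ (e ∈ X0 ∧ e ∉ X ∧ e ∉ l)) ∧ D.u e ∈ U ∧ D.j e ∉ U := by
  induction m with
  | zero =>
    intro X W hX hΦ hE
    obtain ⟨e, he, -⟩ := hstep X W hE.sub hΦ hE.kd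
    rw [card_eq_zero.1 hX] at he
    simp at he
  | succ m ih =>
    intro X W hX hΦ hE
    obtain ⟨e, he, hu, -, hj, hΦ'⟩ := hstep X W hE.sub hΦ hE.kd
    by_cases hC : D.C (D.u e)
    · obtain ⟨n, l, h1, h2, h3, h4, h5⟩ := eng_path hE he hu hj
      refine ⟨X.erase e, insert (D.u e) W, n, l ++ [e], hΦ', (erase_subset _ _).trans hE.sub,
        ⟨h1, ?_, q.take n ++ l, e, by simp, ?_, hC⟩, h3, h4, ?_, ?_⟩
      · rw [List.nodup_append]
        refine ⟨hqn.sublist (List.take_sublist _ _), h2, ?_⟩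
        intro f hf g hg hfg
        subst hfg
        exact hqX f (List.mem_of_mem_take hf) (h3 f hg).1
      · intro f hf
        exact (hE.kd _ (h5 (mem_tl.2 ⟨f, hf, rfl⟩))).2
      · intro y hy
        obtain ⟨f, hf, rfl⟩ := mem_tl.1 hy
        rw [← List.append_assoc, List.mem_append, List.mem_singleton] at hf
        rcases hf with hf | rfl
        · exact mem_insert_of_mem (h5 (mem_tl.2 ⟨f, hf, rfl⟩))
        · exact mem_insert_self _ _
      · intro U hU hb hm hn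
        obtain ⟨f, hf, hfu, hfj⟩ := eng_rooted hE he hj U hU hb hm
        have hfn : f ∉ q.take n ++ (l ++ [e]) := fun h => hn _ (mem_tl.2 ⟨f, h, rfl⟩) hfu
        refine ⟨f, ?_, hfu, hfj⟩
        rcases hf with hf | hf
        · left
          rw [← List.take_append_drop n q, List.mem_append] at hf
          exact hf.resolve_left fun h => hfn (List.mem_append_left _ h)
        · exact Or.inr ⟨hf.1, hf.2, fun h => hfn (List.mem_append_right _ h)⟩
    · refine ih (X.erase e) (insert (D.u e) W) ?_ hΦ' (eng_step hE he hu hj hC)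
      rw [card_erase_of_mem he, hX]
      rfl

/-- The tree consisting of the walk `q` and arcs of `X0` grows, with tails of new arcs in `L`, as
long as no tail reaches both sinks; then it contains a path, which consists of a beginning of `q`
and a list `l` of new arcs. A closed set met by the tree and not by the path is left by an arc of
the tree outside of the path. -/
theorem engine (Φ : Finset A → Finset V → Prop)
    (hstep : ∀ X W, X ⊆ X0 → Φ X W → (∀ x ∈ W, D.R x (D.t b) ∧ ¬ D.C x) →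
      ∃ e ∈ X, D.u e ∈ L ∧ D.u e ∈ D.N b W ∧ D.j e ∉ D.N b W ∧ Φ (X.erase e) (insert (D.u e) W))
    (h0 : Φ X0 (D.tl q)) (hq : D.Fol (D.t b) q) (hqC : ∀ e ∈ q, ¬ D.C (D.u e)) (hqn : q.Nodup)
    (hqX : ∀ e ∈ q, e ∉ X0) :
    ∃ X W n l, Φ X W ∧ X ⊆ X0 ∧ D.Pth b (q.take n ++ l) ∧ (∀ e ∈ l, e ∈ X0 ∧ e ∉ X) ∧
      (∀ e ∈ l, D.u e ∈ L) ∧ D.tl (q.take n ++ l) ⊆ W ∧
      ∀ U, D.Up U → D.t b ∉ U → (∃ x ∈ W, x ∈ U) → (∀ x ∈ D.tl (q.take n ++ l), x ∉ U) →
        ∃ e, (e ∈ q.drop n ∨ (e ∈ X0 ∧ e ∉ X ∧ e ∉ l)) ∧ D.u e ∈ U ∧ D.j e ∉ U :=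
  engine_aux Φ hstep hqn hqX _ X0 (D.tl q) rfl h0 (eng_start hq hqC)

/-- The tails of a path of kind `b` reach `t b`. -/
theorem Pth.reach {p : List A} (hp : D.Pth b p) {x : V} (hx : x ∈ D.tl p) : D.R x (D.t b) := by
  obtain ⟨h1, -, q, e, rfl, h2, h3⟩ := hp
  obtain ⟨f, hf, rfl⟩ := mem_tl.1 hx
  rw [List.mem_append, List.mem_singleton] at hf
  rcases hf with hf | rfl
  · exact fol_reach ⟨D.refl _, not_C_root D b⟩ ((D.fol_append _ _ _).1 h1).1 h2 f hf
  · exact h3 b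

end Dat

end Pool.Agent.Dts
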