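import Pool.Agent.Dts.Sub

/-!
Growth steps: an arc of the rest is added to a tree inside a tight set or inside a minimal set left
by no arc.
-/

namespace Pool.Agent.Dts

open Finset

open scoped Classical

namespace Dat

variable {V A I : Type*} [Fintype V] [Fintype A] [Fintype I]
variable {D : Dat V A} {X : Finset A} {T : I → Finset V} {U K L : Finset V} {k : ℕ} {i : I}
  {b : Bool} {e : A}

theorem mt_gr (T : I → Finset V) (i : I) (x : V) (U : Finset V) :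
    mt (gr T i x) U = if x ∈ U then insert i (mt T U) else mt T U := by
  ext i'
  split_ifs with hx
  · rw [mem_insert, mt_iff, mt_iff]
    unfold gr
    by_cases h : i' = i
    · subst h
      rw [Function.update_self]
      exact ⟨fun _ => Or.inl rfl, fun _ => ⟨x, mem_insert_self _ _, hx⟩⟩
    · rw [Function.update_of_ne h]
      exact ⟨Or.inr, fun h' => h'.resolve_left h⟩
  · rw [mt_iff, mt_iff]
    unfold gr
    by_cases h : i' = i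
    · subst h
      rw [Function.update_self]
      constructor
      · rintro ⟨y, hy, hyU⟩
        rcases mem_insert.1 hy with rfl | hy
        · exact absurd hyU hx
        · exact ⟨y, hy, hyU⟩
      · rintro ⟨y, hy, hyU⟩
        exact ⟨y, mem_insert_of_mem hy, hyU⟩
    · rw [Function.update_of_ne h]

theorem step_h (hs : D.Step b X T i e) (hU : D.L0 U) :
    D.h (X.erase e) (gr T i (D.u e)) U +
      (if (D.u e ∈ U ∧ D.j e ∉ U) ∧ i ∈ mt T U then 1 else 0) = D.h X T U := by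
  have h1 := d_erase (D := D) hs.mem U
  unfold h
  rw [mt_gr]
  by_cases hu : D.u e ∈ U
  · rw [if_pos hu]
    by_cases hj : D.j e ∈ U
    · rw [if_neg (fun h => h.2 hj)] at h1
      rw [if_neg (fun h => h.1.2 hj)]
      obtain ⟨y, hy, hyU⟩ := met_of_not_mem_N hU.2.1 (hU.2.2 b) hj hs.jN
      rw [insert_eq_of_mem ((mt_iff T U i).2 ⟨y, hy, hyU⟩)]
      omega
    · rw [if_pos ⟨hu, hj⟩] at h1
      by_cases hi : i ∈ mt T U
      · rw [if_pos ⟨⟨hu, hj⟩, hi⟩, insert_eq_of_mem hi]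
        omega
      · rw [if_neg (fun h => hi h.2), card_insert_of_notMem hi]
        omega
  · rw [if_neg (fun h => hu h.1)] at h1
    rw [if_neg hu, if_neg (fun h : (D.u e ∈ U ∧ D.j e ∉ U) ∧ i ∈ mt T U => hu h.1.1)]
    omega

theorem pick_aux (hv : D.Valid k X T) (hK : D.Tight k X T K) (hi : i ∈ mt T K)
    (hN : (K ∩ D.N b (T i)).Nonempty) :
    ∃ e ∈ X, D.u e ∈ K ∧ D.u e ∈ D.N b (T i) ∧ D.j e ∈ K ∧ D.j e ∉ D.N b (T i) := by
  have h1 := hv _ (hK.1.inter (D.up_N b (T i)) hN)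
  have h2 : mt T (K ∩ D.N b (T i)) ⊂ mt T K := by
    refine ⟨mt_mono T inter_subset_left, fun hs => ?_⟩
    obtain ⟨x, hx, hxN⟩ := (mt_iff _ _ _).1 (hs hi)
    exact not_mem_N hx (mem_inter.1 hxN).2
  have h3 := card_lt_card h2
  have h4 := hK.2
  unfold h at h1 h4
  obtain ⟨e, he, hu, hj, hn⟩ := exists_arc (D := D) (X := X) (W := K) (U := K ∩ D.N b (T i))
    (by omega)
  rw [mem_inter] at hu hj
  have hjK : D.j e ∈ K := by
    by_contra h5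
    exact hn ⟨hu.1, h5⟩
  exact ⟨e, he, hu.1, hu.2, hjK, fun h5 => hj ⟨hjK, h5⟩⟩

theorem pick (hv : D.Valid k X T) (hL : (∃ Y, Y ⊆ L ∧ D.Tight k X T Y ∧ i ∈ mt T Y ∧
      (Y ∩ D.N b (T i)).Nonempty) ∨ ∃ e ∈ X, D.u e ∈ L ∧ D.u e ∈ D.N b (T i) ∧ D.j e ∈ L ∧
        D.j e ∉ D.N b (T i) ∧ ∀ Y, D.Tight k X T Y → i ∈ mt T Y → D.u e ∈ Y → D.j e ∈ Y) :
    ∃ e, D.Step b X T i e ∧ D.u e ∈ L ∧ D.j e ∈ L ∧
      D.Valid k (X.erase e) (gr T i (D.u e)) := by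
  obtain ⟨e, he, huL, huN, hjL, hjN, hbad⟩ : ∃ e ∈ X, D.u e ∈ L ∧ D.u e ∈ D.N b (T i) ∧
      D.j e ∈ L ∧ D.j e ∉ D.N b (T i) ∧
      ∀ Y, D.Tight k X T Y → i ∈ mt T Y → D.u e ∈ Y → D.j e ∈ Y := by
    rcases hL with ⟨Y0, hY0L, hY0⟩ | h
    · obtain ⟨K, hKY, ⟨hKt, hKi, hKN⟩, hmin⟩ := exists_min
        (fun Y => D.Tight k X T Y ∧ i ∈ mt T Y ∧ (Y ∩ D.N b (T i)).Nonempty) Y0 hY0
      obtain ⟨e, he, hu, huN, hj, hjN⟩ := pick_aux hv hKt hKi hKN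
      refine ⟨e, he, hY0L (hKY hu), huN, hY0L (hKY hj), hjN, fun Y hY hYi huY => ?_⟩
      have hne : (K ∩ Y).Nonempty := ⟨D.u e, mem_inter.2 ⟨hu, huY⟩⟩
      obtain ⟨h1, -, h2⟩ := tight_inter hv hKt hY hne
      have h3 := hmin (K ∩ Y) ⟨h1, by rw [h2]; exact mem_inter.2 ⟨hKi, hYi⟩,
        ⟨D.u e, mem_inter.2 ⟨mem_inter.2 ⟨hu, huY⟩, huN⟩⟩⟩ inter_subset_left
      rw [← h3] at hj
      exact (mem_inter.1 hj).2
    · exact h
  have hs : D.Step b X T i e := ⟨he, huN, hjN⟩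
  refine ⟨e, hs, huL, hjL, fun U hU => ?_⟩
  have h1 := step_h hs hU
  have h2 := hv U hU
  by_cases hc : (D.u e ∈ U ∧ D.j e ∉ U) ∧ i ∈ mt T U
  · rw [if_pos hc] at h1
    by_contra hlt
    exact hc.1.2 (hbad U ⟨hU, by omega⟩ hc.2 hc.1.1)
  · rw [if_neg hc] at h1
    omega

theorem grow_tight (hv : D.Valid k X T) (hL : D.Tight k X T L) (hm : i ∈ mt T L)
    (hN : ∃ x ∈ L, x ∈ D.N b (T i)) :
    ∃ e, D.Step b X T i e ∧ D.u e ∈ L ∧ D.j e ∈ L ∧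
      D.Valid k (X.erase e) (gr T i (D.u e)) := by
  obtain ⟨x, hx, hxN⟩ := hN
  exact pick hv (Or.inl ⟨L, Subset.refl _, hL, hm, ⟨x, mem_inter.2 ⟨hx, hxN⟩⟩⟩)

theorem grow_ssc (hv : D.Valid k X T) (hK : D.SSC X K) (hm : i ∈ mt T K)
    (hN : ∃ x ∈ K, x ∈ D.N b (T i)) :
    ∃ e, D.Step b X T i e ∧ D.u e ∈ K ∧ D.j e ∈ K ∧
      D.Valid k (X.erase e) (gr T i (D.u e)) := by
  obtain ⟨x, hx, hxN⟩ := hN
  refine pick hv ?_
  by_cases hY : ∃ Y, Y ⊆ K ∧ D.Tight k X T Y ∧ i ∈ mt T Y ∧ (Y ∩ D.N b (T i)).Nonempty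
  · exact Or.inl hY
  · right
    have h1 := hK.1.1.inter (D.up_N b (T i)) ⟨x, mem_inter.2 ⟨hx, hxN⟩⟩
    have h2 : ¬ D.d X (K ∩ D.N b (T i)) = 0 := by
      intro h3
      have h4 := hK.2 _ ⟨h1, h3⟩ inter_subset_left
      obtain ⟨y, hy, hyK⟩ := (mt_iff _ _ _).1 hm
      rw [← h4] at hyK
      exact not_mem_N hy (mem_inter.1 hyK).2
    rw [d_zero_iff] at h2
    push Not at h2
    obtain ⟨e, he, hu, hj⟩ := h2
    rw [mem_inter] at hu hj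
    have hjK : D.j e ∈ K := d_zero_iff.1 hK.1.2 e he hu.1
    refine ⟨e, he, hu.1, hu.2, hjK, fun h => hj ⟨hjK, h⟩, fun Y hYt hYi huY => ?_⟩
    exfalso
    obtain ⟨h3, h4, -⟩ := tight_zz hv hYt hK.1 ⟨D.u e, mem_inter.2 ⟨huY, hu.1⟩⟩
    exact hY ⟨Y ∩ K, inter_subset_right, h3, by rw [h4]; exact hYi,
      ⟨D.u e, mem_inter.2 ⟨mem_inter.2 ⟨huY, hu.1⟩, hu.2⟩⟩⟩

end Dat

end Pool.Agent.Dts
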