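import Pool.Agent.Dts.Engine
import Pool.Agent.Dts.Grow

/-!
Existence of a system.
-/

namespace Pool.Agent.Dts

open Finset

open scoped Classical

namespace Dat

variable {V A I : Type*} [Fintype V] [Fintype A] [Fintype I]
variable {D : Dat V A} {S X : Finset A} {k : ℕ} {κ : I → Bool} {T : I → Finset V} {b : Bool}
  {U W K Y : Finset V} {i : I} {e : A}

/-- The arcs of `X` leaving `U` and the trees meeting `U`, only those of kind `b` if `U` contains
the other sink. -/
noncomputable def hb (D : Dat V A) (κ : I → Bool) (b : Bool) (X : Finset A) (T : I → Finset V)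
    (U : Finset V) : ℕ :=
  D.d X U + ((mt T U).filter fun i => D.t (!b) ∈ U → κ i = b).card

def VB (D : Dat V A) (k : ℕ) (κ : I → Bool) (b : Bool) (X : Finset A) (T : I → Finset V) : Prop :=
  ∀ U : Finset V, U.Nonempty → D.Up U → D.t b ∉ U → k ≤ D.hb κ b X T U

theorem hb_cnt (D : Dat V A) (κ : I → Bool) (b : Bool) (T : I → Finset V) (U : Finset V) :
    ((mt T U).filter fun i => D.t (!b) ∈ U → κ i = b).card =
      ∑ i : I, if (i ∈ mt T U ∧ (D.t (!b) ∈ U → κ i = b)) then 1 else 0 := by
  rw [← card_filter]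
  congr 1
  ext i
  simp only [mem_filter, mem_univ, true_and]

theorem hb_sub (D : Dat V A) (κ : I → Bool) (b : Bool) (X : Finset A) (T : I → Finset V)
    (U W : Finset V) :
    D.hb κ b X T (U ∩ W) + D.hb κ b X T (U ∪ W) ≤ D.hb κ b X T U + D.hb κ b X T W ∧
    ∀ i, κ i = b → i ∈ mt T U → i ∈ mt T W → i ∉ mt T (U ∩ W) →
      D.hb κ b X T (U ∩ W) + D.hb κ b X T (U ∪ W) < D.hb κ b X T U + D.hb κ b X T W := by
  have h1 := D.d_sub X U W
  have h2 : ∀ i : I,
      (if (i ∈ mt T (U ∩ W) ∧ (D.t (!b) ∈ U ∩ W → κ i = b)) then 1 else 0) +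
      (if (i ∈ mt T (U ∪ W) ∧ (D.t (!b) ∈ U ∪ W → κ i = b)) then 1 else 0) ≤
      (if (i ∈ mt T U ∧ (D.t (!b) ∈ U → κ i = b)) then 1 else 0) +
      (if (i ∈ mt T W ∧ (D.t (!b) ∈ W → κ i = b)) then 1 else 0) := by
    intro i
    have h3 : i ∈ mt T (U ∩ W) → i ∈ mt T U ∧ i ∈ mt T W := fun h => mem_inter.1 (mt_inter T U W h)
    have h4 : i ∈ mt T (U ∪ W) ↔ i ∈ mt T U ∨ i ∈ mt T W := by rw [mt_union, mem_union]
    simp only [h4, mem_inter, mem_union]
    by_cases a1 : i ∈ mt T (U ∩ W) <;> by_cases a2 : i ∈ mt T U <;> by_cases a3 : i ∈ mt T W <;>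
      by_cases a4 : D.t (!b) ∈ U <;> by_cases a5 : D.t (!b) ∈ W <;> by_cases a6 : κ i = b <;>
      simp_all
  refine ⟨?_, fun i hk hU hW hn => ?_⟩
  · unfold hb
    rw [hb_cnt, hb_cnt, hb_cnt, hb_cnt]
    have h3 := sum_le_sum fun i (_ : i ∈ (univ : Finset I)) => h2 i
    rw [sum_add_distrib, sum_add_distrib] at h3
    omega
  · unfold hb
    rw [hb_cnt, hb_cnt, hb_cnt, hb_cnt]
    have h4 : i ∈ mt T (U ∪ W) ↔ i ∈ mt T U ∨ i ∈ mt T W := by rw [mt_union, mem_union]
    have h3 := sum_lt_sum (fun i (_ : i ∈ (univ : Finset I)) => h2 i) ⟨i, mem_univ _, by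
      simp [h4, hk, hU, hW, hn]⟩
    rw [sum_add_distrib, sum_add_distrib] at h3
    omega

theorem hb_L0 (hU : D.L0 U) : D.hb κ b X T U = D.h X T U := by
  unfold hb h
  rw [filter_true_of_mem]
  exact fun i _ h => absurd h (hU.2.2 _)

/-- Change of `hb` under growth. -/
theorem step_hb (hs : D.Step b X T i e) (hi : κ i = b) (hU : D.Up U) (hbU : D.t b ∉ U) :
    D.hb κ b (X.erase e) (gr T i (D.u e)) U +
      (if (D.u e ∈ U ∧ D.j e ∉ U) ∧ i ∈ mt T U then 1 else 0) = D.hb κ b X T U := by
  have h1 := d_erase (D := D) hs.mem U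
  unfold hb
  rw [mt_gr]
  by_cases hu : D.u e ∈ U
  · rw [if_pos hu]
    by_cases hj : D.j e ∈ U
    · rw [if_neg (fun h => h.2 hj)] at h1
      rw [if_neg (fun h => h.1.2 hj)]
      obtain ⟨y, hy, hyU⟩ := met_of_not_mem_N hU hbU hj hs.jN
      rw [insert_eq_of_mem ((mt_iff T U i).2 ⟨y, hy, hyU⟩)]
      omega
    · rw [if_pos ⟨hu, hj⟩] at h1
      by_cases hm : i ∈ mt T U
      · rw [if_pos ⟨⟨hu, hj⟩, hm⟩, insert_eq_of_mem hm]
        omega
      · rw [if_neg (fun h => hm h.2), filter_insert, if_pos (fun _ => hi),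
          card_insert_of_notMem (fun h => hm (mem_filter.1 h).1)]
        omega
  · rw [if_neg (fun h => hu h.1)] at h1
    rw [if_neg hu, if_neg (fun h : (D.u e ∈ U ∧ D.j e ∉ U) ∧ i ∈ mt T U => hu h.1.1)]
    omega

theorem exists_step (hc : Cnt κ k) (hi : κ i = b) (hv : D.VB k κ b X T)
    (hkd : ∀ x ∈ T i, D.R x (D.t b) ∧ ¬ D.C x) :
    ∃ e, D.Step b X T i e ∧ D.VB k κ b (X.erase e) (gr T i (D.u e)) := by
  have htN : D.t (!b) ∈ D.N b (T i) := by
    rw [mem_N]
    refine ⟨D.ind b, fun y hy h => (hkd y hy).2 fun a => ?_⟩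
    by_cases hab : a = b
    · rw [hab]
      exact (hkd y hy).1
    · have : a = !b := by
        cases a <;> cases b <;> simp_all
      rw [this]
      exact h
  have hbN : D.t b ∉ D.N b (T i) := fun h => (mem_N.1 h).1 (D.refl _)
  have hNi : i ∉ mt T (D.N b (T i)) := by
    intro h
    obtain ⟨x, hx, hxN⟩ := (mt_iff _ _ _).1 h
    exact not_mem_N hx hxN
  obtain ⟨e, he, huN, hjN, hbad⟩ : ∃ e ∈ X, D.u e ∈ D.N b (T i) ∧ D.j e ∉ D.N b (T i) ∧
      ∀ Y, D.Up Y → D.t b ∉ Y → D.hb κ b X T Y = k → i ∈ mt T Y → D.u e ∈ Y → D.j e ∈ Y := by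
    by_cases hY : ∃ Y, (D.Up Y ∧ D.t b ∉ Y ∧ D.hb κ b X T Y = k ∧ i ∈ mt T Y) ∧
        (Y ∩ D.N b (T i)).Nonempty
    · obtain ⟨Y0, hY0⟩ := hY
      obtain ⟨K, -, ⟨⟨hKU, hKb, hKk, hKi⟩, hKN⟩, hmin⟩ := exists_min
        (fun Y => (D.Up Y ∧ D.t b ∉ Y ∧ D.hb κ b X T Y = k ∧ i ∈ mt T Y) ∧
          (Y ∩ D.N b (T i)).Nonempty) Y0 hY0
      have h1 := hv _ hKN (hKU.inter (D.up_N b (T i))) fun h => hKb (mem_inter.1 h).1
      have h2 : ((mt T (K ∩ D.N b (T i))).filter fun a => D.t (!b) ∈ K ∩ D.N b (T i) → κ a = b) ⊂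
          (mt T K).filter fun a => D.t (!b) ∈ K → κ a = b := by
        refine ⟨fun a ha => ?_, fun hs => ?_⟩
        · rw [mem_filter] at ha ⊢
          exact ⟨mt_mono T inter_subset_left ha.1, fun h => ha.2 (mem_inter.2 ⟨h, htN⟩)⟩
        · exact hNi (mt_mono T inter_subset_right
            (mem_filter.1 (hs (mem_filter.2 ⟨hKi, fun _ => hi⟩))).1)
      have h3 := card_lt_card h2
      unfold hb at h1 hKk
      obtain ⟨e, he, hu, hj, hn⟩ := exists_arc (D := D) (X := X) (W := K) (U := K ∩ D.N b (T i))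
        (by omega)
      rw [mem_inter] at hu hj
      have hjK : D.j e ∈ K := by
        by_contra h5
        exact hn ⟨hu.1, h5⟩
      refine ⟨e, he, hu.2, fun h5 => hj ⟨hjK, h5⟩, fun Y hYU hYb hYk hYi huY => ?_⟩
      have hne : (K ∩ Y).Nonempty := ⟨D.u e, mem_inter.2 ⟨hu.1, huY⟩⟩
      have h4 := hv _ hne (hKU.inter hYU) fun h => hKb (mem_inter.1 h).1
      have h5 := hv _ (hne.mono (inter_subset_union)) (hKU.union hYU)
        fun h => (mem_union.1 h).elim hKb hYb
      obtain ⟨h6, h7⟩ := D.hb_sub κ b X T K Y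
      have hKk' : D.hb κ b X T K = k := hKk
      have h8 : i ∈ mt T (K ∩ Y) := by
        by_contra h9
        have := h7 i hi hKi hYi h9
        omega
      have h9 := hmin (K ∩ Y) ⟨⟨hKU.inter hYU, fun h => hKb (mem_inter.1 h).1, by omega, h8⟩,
        ⟨D.u e, mem_inter.2 ⟨mem_inter.2 ⟨hu.1, huY⟩, hu.2⟩⟩⟩ inter_subset_left
      rw [← h9] at hjK
      exact (mem_inter.1 hjK).2
    · have h1 := hv _ ⟨_, htN⟩ (D.up_N b (T i)) hbN
      have h2 : ((mt T (D.N b (T i))).filter fun a => D.t (!b) ∈ D.N b (T i) → κ a = b) ⊂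
          (univ : Finset I).filter fun a => κ a = b := by
        refine ⟨fun a ha => ?_, fun hs => ?_⟩
        · rw [mem_filter] at ha ⊢
          exact ⟨mem_univ _, ha.2 htN⟩
        · exact hNi (mem_filter.1 (hs (mem_filter.2 ⟨mem_univ _, hi⟩))).1
      have h3 := card_lt_card h2
      rw [hc b] at h3
      unfold hb at h1
      have h4 : ¬ D.d X (D.N b (T i)) = 0 := by omega
      rw [d_zero_iff] at h4
      push Not at h4
      obtain ⟨e, he, hu, hj⟩ := h4
      exact ⟨e, he, hu, hj, fun Y h5 h6 h7 h8 huY =>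
        absurd ⟨Y, ⟨h5, h6, h7, h8⟩, ⟨D.u e, mem_inter.2 ⟨huY, hu⟩⟩⟩ hY⟩
  have hs : D.Step b X T i e := ⟨he, huN, hjN⟩
  refine ⟨e, hs, fun U hne hU hbU => ?_⟩
  have h1 := step_hb (κ := κ) hs hi hU hbU
  have h2 := hv U hne hU hbU
  by_cases hcnd : (D.u e ∈ U ∧ D.j e ∉ U) ∧ i ∈ mt T U
  · rw [if_pos hcnd] at h1
    by_contra hlt
    exact hcnd.1.2 (hbad U hU hbU (by omega) hcnd.2 hcnd.1.1)
  · rw [if_neg hcnd] at h1
    omega

/-- Growth of a tree of kind `b` does not matter for the other kind. -/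
theorem step_other (hs : D.Step b X T i e) (hi : κ i = b)
    (hkd : ∀ x ∈ T i, D.R x (D.t b) ∧ ¬ D.C x)
    (hv' : D.VB k κ b (X.erase e) (gr T i (D.u e))) (hv : D.VB k κ (!b) X T) :
    D.VB k κ (!b) (X.erase e) (gr T i (D.u e)) := by
  intro U hne hU hbU
  by_cases htb : D.t b ∈ U
  · have hj : D.R (D.j e) (D.t b) := by
      have h := hs.jN
      rw [mem_N] at h
      by_cases h1 : D.R (D.t b) (D.j e)
      · exact reach_of_root h1
      · have h2 : ∃ y ∈ T i, D.R y (D.j e) := by
          by_contra hc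
          push Not at hc
          exact h ⟨h1, hc⟩
        obtain ⟨y, hy, hyj⟩ := h2
        exact reach_of_not hyj (hkd y hy)
    have hjU : D.j e ∈ U := hU _ _ hj htb
    have h1 := d_erase (D := D) hs.mem U
    rw [if_neg (fun h => h.2 hjU)] at h1
    have h2 := hv U hne hU hbU
    have h3 : (mt (gr T i (D.u e)) U).filter (fun i => D.t (!!b) ∈ U → κ i = !b) =
        (mt T U).filter (fun i => D.t (!!b) ∈ U → κ i = !b) := by
      rw [mt_gr]
      split_ifs with h4
      · rw [filter_insert, if_neg]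
        rw [Bool.not_not, hi]
        intro h5
        have := h5 htb
        cases b <;> simp at this
      · rfl
    unfold hb at h2 ⊢
    rw [h3]
    omega
  · have h0 : D.L0 U := ⟨hne, hU, fun a => by
      by_cases hab : a = b
      · rw [hab]
        exact htb
      · have : a = !b := by
          cases a <;> cases b <;> simp_all
        rw [this]
        exact hbU⟩
    rw [hb_L0 h0, ← hb_L0 (b := b) (κ := κ) h0]
    exact hv' U hne hU htb

theorem gr_update (T : I → Finset V) (i : I) (W : Finset V) (x : V) :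
    gr (Function.update T i W) i x = Function.update T i (insert x W) := by
  unfold gr
  rw [Function.update_self, Function.update_idem]

theorem mt_update (T : I → Finset V) (i : I) (W U : Finset V) (i' : I) :
    i' ∈ mt (Function.update T i W) U ↔ (i' = i ∧ ∃ x ∈ W, x ∈ U) ∨ (i' ≠ i ∧ i' ∈ mt T U) := by
  rw [mt_iff, mt_iff]
  by_cases h : i' = i
  · subst h
    rw [Function.update_self]
    constructor
    · exact fun h => Or.inl ⟨rfl, h⟩
    · rintro (h | h)
      · exact h.2
      · exact absurd rfl h.1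
  · rw [Function.update_of_ne h]
    constructor
    · exact fun h' => Or.inr ⟨h, h'⟩
    · rintro (h' | h')
      · exact absurd h'.1 h
      · exact h'.2

/-- Partial systems. -/
structure PSys (D : Dat V A) (k : ℕ) (κ : I → Bool) (S : Finset A) (J : Finset I)
    (p : I → List A) : Prop where
  sub : ∀ i, ∀ e ∈ p i, e ∈ S
  dis : ∀ i i', i ≠ i' → ∀ e ∈ p i, e ∉ p i'
  pth : ∀ i ∈ J, D.Pth (κ i) (p i)
  nil : ∀ i ∉ J, p i = []
  val : ∀ b, D.VB k κ b (rest S p) (D.tt p)

theorem psys_insert (hc : Cnt κ k) {J : Finset I} {p : I → List A} (hp : D.PSys k κ S J p)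
    (hi : i ∉ J) : ∃ p', D.PSys k κ S (insert i J) p' := by
  set b := κ i with hκ
  obtain ⟨X, W, n, l, hΦ, hX, hl, hlX, -, hlW, hdrop⟩ := engine (D := D) (X0 := rest S p)
    (L := univ) (b := b) (q := []) (fun X W => ∀ β, D.VB k κ β X (Function.update (D.tt p) i W))
    (fun X W _ hΦ hkd => by
      have hkd' : ∀ x ∈ (Function.update (D.tt p) i W) i, D.R x (D.t b) ∧ ¬ D.C x := by
        rw [Function.update_self]
        exact hkd
      obtain ⟨e, hs, hv⟩ := exists_step hc hκ.symm (hΦ b) hkd'
      have h1 := hs.uN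
      have h2 := hs.jN
      rw [Function.update_self] at h1 h2
      refine ⟨e, hs.mem, mem_univ _, h1, h2, fun β => ?_⟩
      rw [← gr_update]
      by_cases hβ : β = b
      · rw [hβ]
        exact hv
      · have : β = !b := by
          cases β <;> cases hbb : b <;> simp_all
        rw [this]
        exact step_other hs hκ.symm hkd' hv (hΦ _))
    (by
      intro β
      have h1 : Function.update (D.tt p) i (D.tl []) = D.tt p := by
        have h2 : D.tl [] = D.tt p i := by
          unfold tt
          rw [hp.nil i hi]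
        rw [h2, Function.update_eq_self]
      rw [h1]
      exact hp.val β)
    trivial (by simp) (by simp) (by simp)
  rw [List.take_nil, List.nil_append] at hl hlW hdrop
  have hrest : ∀ e, e ∈ rest S (Function.update p i l) ↔ e ∈ rest S p ∧ e ∉ l := by
    intro e
    unfold rest
    rw [mem_filter, mem_filter]
    constructor
    · rintro ⟨h1, h2⟩
      refine ⟨⟨h1, fun i' => ?_⟩, ?_⟩
      · by_cases h : i' = i
        · rw [h, hp.nil i hi]
          simp
        · have := h2 i'
          rwa [Function.update_of_ne h] at this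
      · have := h2 i
        rwa [Function.update_self] at this
    · rintro ⟨⟨h1, h2⟩, h3⟩
      refine ⟨h1, fun i' => ?_⟩
      by_cases h : i' = i
      · rw [h, Function.update_self]
        exact h3
      · rw [Function.update_of_ne h]
        exact h2 i'
  have htt : D.tt (Function.update p i l) = Function.update (D.tt p) i (D.tl l) := by
    funext i'
    unfold tt
    by_cases h : i' = i
    · rw [h, Function.update_self, Function.update_self]
    · rw [Function.update_of_ne h, Function.update_of_ne h]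
  have hrl : ∀ e ∈ l, e ∈ rest S p := fun e he => (hlX e he).1
  refine ⟨Function.update p i l, ?_, ?_, ?_, ?_, ?_⟩
  · intro i' e he
    by_cases h : i' = i
    · rw [h, Function.update_self] at he
      exact (mem_filter.1 (hrl e he)).1
    · rw [Function.update_of_ne h] at he
      exact hp.sub i' e he
  · intro i1 i2 hne e he
    by_cases h1 : i1 = i
    · have h2 : i2 ≠ i := fun h => hne (h1.trans h.symm)
      rw [h1, Function.update_self] at he
      rw [Function.update_of_ne h2]
      exact (mem_filter.1 (hrl e he)).2 i2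
    · rw [Function.update_of_ne h1] at he
      by_cases h2 : i2 = i
      · rw [h2, Function.update_self]
        exact fun h => (mem_filter.1 (hrl e h)).2 i1 he
      · rw [Function.update_of_ne h2]
        exact hp.dis i1 i2 hne e he
  · intro i' hi'
    by_cases h : i' = i
    · rw [h, Function.update_self]
      exact hl
    · rw [Function.update_of_ne h]
      exact hp.pth i' ((mem_insert.1 hi').resolve_left h)
  · intro i' hi'
    rw [mem_insert, not_or] at hi'
    rw [Function.update_of_ne hi'.1]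
    exact hp.nil i' hi'.2
  · intro β U hne hU hβU
    refine (hΦ β U hne hU hβU).trans ?_
    have hsub : X ⊆ rest S (Function.update p i l) := by
      intro e he
      rw [hrest]
      exact ⟨hX he, fun h => (hlX e h).2 he⟩
    have h1 := d_mono (D := D) hsub U
    unfold hb
    rw [htt]
    by_cases hm : (∃ x ∈ W, x ∈ U) ∧ ∀ x ∈ D.tl l, x ∉ U
    · by_cases htb : D.t b ∈ U
      · -- the tree is not counted
        have hβ : β = !b := by
          have h2 : β ≠ b := fun h => hβU (h ▸ htb)
          cases β <;> cases hbb : b <;> simp_all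
        refine add_le_add h1 (card_le_card fun i' hi' => ?_)
        rw [mem_filter, mt_update] at hi' ⊢
        obtain ⟨h2, h3⟩ := hi'
        refine ⟨?_, h3⟩
        rcases h2 with h2 | h2
        · exfalso
          rw [hβ, Bool.not_not, h2.1, ← hκ] at h3
          have := h3 htb
          cases b <;> simp at this
        · exact Or.inr h2
      · obtain ⟨e, he, hu, hj⟩ := hdrop U hU htb hm.1 hm.2
        have h2 : D.d X U + 1 ≤ D.d (rest S (Function.update p i l)) U := by
          rcases he with he | he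
          · simp at he
          · have h3 : e ∉ X.filter fun e => D.u e ∈ U ∧ D.j e ∉ U := fun h => he.2.1 (mem_filter.1 h).1
            unfold d
            rw [← card_insert_of_notMem h3]
            refine card_le_card (insert_subset ?_ (filter_subset_filter _ hsub))
            rw [mem_filter, hrest]
            exact ⟨⟨he.1, he.2.2⟩, hu, hj⟩
        have h3 : (mt (Function.update (D.tt p) i W) U).filter (fun i => D.t (!β) ∈ U → κ i = β) ⊆
            insert i ((mt (Function.update (D.tt p) i (D.tl l)) U).filter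
              fun i => D.t (!β) ∈ U → κ i = β) := by
          intro i' hi'
          rw [mem_insert]
          by_cases h : i' = i
          · exact Or.inl h
          · right
            rw [mem_filter, mt_update] at hi' ⊢
            refine ⟨Or.inr ⟨h, ?_⟩, hi'.2⟩
            rcases hi'.1 with h4 | h4
            · exact absurd h4.1 h
            · exact h4.2
        have h4 := card_le_card h3
        have h5 := card_insert_le i ((mt (Function.update (D.tt p) i (D.tl l)) U).filter
              fun i => D.t (!β) ∈ U → κ i = β)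
        omega
    · refine add_le_add h1 (card_le_card fun i' hi' => ?_)
      rw [mem_filter, mt_update] at hi' ⊢
      refine ⟨?_, hi'.2⟩
      rcases hi'.1 with h2 | h2
      · left
        refine ⟨h2.1, ?_⟩
        by_contra hcon
        push Not at hcon
        exact hm ⟨h2.2, hcon⟩
      · exact Or.inr h2

theorem exists_sys (hc : Cnt κ k)
    (hS : ∀ U : Finset V, U.Nonempty → D.Up U → (∃ b, D.t b ∉ U) → k ≤ D.d S U) :
    ∃ p, D.Sys k κ S p := by
  have h : ∀ J : Finset I, ∃ p, D.PSys k κ S J p := by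
    intro J
    induction J using Finset.induction_on with
    | empty =>
      refine ⟨fun _ => [], by simp, by simp, by simp, by simp, fun b U hne hU hb => ?_⟩
      have h1 : rest S (fun _ : I => ([] : List A)) = S := by
        unfold rest
        simp
      rw [h1]
      exact (hS U hne hU ⟨b, hb⟩).trans (Nat.le_add_right _ _)
    | insert i J hi ih =>
      obtain ⟨p, hp⟩ := ih
      exact psys_insert hc hp hi
  obtain ⟨p, hp⟩ := h univ
  refine ⟨p, hp.sub, hp.dis, fun i => hp.pth i (mem_univ _), fun U hU => ?_⟩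
  have h1 := hp.val true U hU.1 hU.2.1 (hU.2.2 true)
  rwa [hb_L0 hU] at h1

end Dat

end Pool.Agent.Dts
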