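import Pool.Agent.Dts.Sub

/-!
Growth of a set of arcs to a set which leaves every set of `L0`.
-/

namespace Pool.Agent.Dts

open Finset

open scoped Classical

namespace Dat

variable {V A I : Type*} [Fintype V] [Fintype A] [Fintype I]
variable {D : Dat V A} {X E : Finset A} {O : I → Finset V} {m : ℕ}

theorem extract_aux (D : Dat V A) (O : I → Finset V) (m : ℕ) : ∀ n : ℕ, ∀ X E : Finset A,
    X.card = n → Disjoint X E →
    (∀ U, D.L0 U → (∃ e ∈ E, D.u e ∈ U) → ∃ e ∈ E, D.u e ∈ U ∧ D.j e ∉ U) →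
    D.Valid m X O →
    (∀ U, D.L0 U → (∀ e ∈ E, D.u e ∉ U) → m + 1 ≤ D.h X O U ∧ 1 ≤ D.d X U) →
    ∃ E', E ⊆ E' ∧ E' ⊆ E ∪ X ∧ (∀ U, D.L0 U → ∃ e ∈ E', D.u e ∈ U ∧ D.j e ∉ U) ∧
      D.Valid m (X \ E') O := by
  intro n
  induction n using Nat.strong_induction_on with
  | _ n ih =>
  intro X E hn hXE hE hg hg'
  set N : Finset V := univ.filter fun x => (∀ b, ¬ D.R (D.t b) x) ∧ ∀ e ∈ E, ¬ D.R (D.u e) x
    with hN
  have hmem : ∀ x, x ∈ N ↔ (∀ b, ¬ D.R (D.t b) x) ∧ ∀ e ∈ E, ¬ D.R (D.u e) x := by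
    intro x
    rw [hN, mem_filter]
    exact ⟨fun h => h.2, fun h => ⟨mem_univ _, h⟩⟩
  have hUp : D.Up N := by
    intro x y hxy hy
    rw [hmem] at hy ⊢
    exact ⟨fun b h => hy.1 b (D.trans _ _ _ h hxy), fun e he h => hy.2 e he (D.trans _ _ _ h hxy)⟩
  -- a closed set without the sinks which is not inside `N` is met by `E`
  have hmet : ∀ U x, D.L0 U → x ∈ U → x ∉ N → ∃ e ∈ E, D.u e ∈ U := by
    intro U x hU hx hxN
    rw [hmem] at hxN
    by_contra hc
    push Not at hc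
    exact hxN ⟨fun b h => hU.2.2 b (hU.2.1 _ _ h hx), fun e he h => hc e he (hU.2.1 _ _ h hx)⟩
  by_cases hNe : N.Nonempty
  · have hNL : D.L0 N := ⟨hNe, hUp, fun b h => ((hmem _).1 h).1 b (D.refl _)⟩
    have hEN : ∀ e ∈ E, D.u e ∉ N := fun e he h => ((hmem _).1 h).2 e he (D.refl _)
    obtain ⟨e, he, huN, hjN, hbad⟩ : ∃ e ∈ X, D.u e ∈ N ∧ D.j e ∉ N ∧
        ∀ Y, D.Tight m X O Y → D.u e ∈ Y → D.j e ∈ Y := by
      by_cases hY : ∃ Y, D.Tight m X O Y ∧ (Y ∩ N).Nonempty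
      · obtain ⟨Y0, hY0⟩ := hY
        obtain ⟨K, -, ⟨hKt, hKN⟩, hmin⟩ := exists_min
          (fun Y => D.Tight m X O Y ∧ (Y ∩ N).Nonempty) Y0 hY0
        have h1 := (hg' _ (hKt.1.inter hUp hKN) fun e he h => hEN e he (mem_inter.1 h).2).1
        have h2 := card_le_card (mt_mono O (inter_subset_left : K ∩ N ⊆ K))
        have h3 := hKt.2
        unfold h at h1 h3
        obtain ⟨e, he, hu, hj, hn'⟩ := exists_arc (D := D) (X := X) (W := K) (U := K ∩ N)
          (by omega)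
        rw [mem_inter] at hu hj
        have hjK : D.j e ∈ K := by
          by_contra h5
          exact hn' ⟨hu.1, h5⟩
        refine ⟨e, he, hu.2, fun h5 => hj ⟨hjK, h5⟩, fun Y hY huY => ?_⟩
        obtain ⟨h4, -, -⟩ := tight_inter hg hKt hY ⟨D.u e, mem_inter.2 ⟨hu.1, huY⟩⟩
        have h5 := hmin (K ∩ Y) ⟨h4, ⟨D.u e, mem_inter.2 ⟨mem_inter.2 ⟨hu.1, huY⟩, hu.2⟩⟩⟩
          inter_subset_left
        rw [← h5] at hjK
        exact (mem_inter.1 hjK).2
      · have h1 := (hg' N hNL hEN).2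
        have h2 : ¬ D.d X N = 0 := by omega
        rw [d_zero_iff] at h2
        push Not at h2
        obtain ⟨e, he, hu, hj⟩ := h2
        exact ⟨e, he, hu, hj, fun Y hYt huY => absurd ⟨Y, hYt, ⟨D.u e, mem_inter.2 ⟨huY, hu⟩⟩⟩ hY⟩
    have hlt : (X.erase e).card < n := by
      rw [← hn]
      exact card_lt_card (erase_ssubset he)
    have g1 : Disjoint (X.erase e) (insert e E) := by
      rw [disjoint_left]
      intro a ha ha'
      rw [mem_erase] at ha
      rcases mem_insert.1 ha' with h5 | h5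
      · exact ha.1 h5
      · exact disjoint_left.1 hXE ha.2 h5
    have g2 : ∀ U, D.L0 U → (∃ f ∈ insert e E, D.u f ∈ U) →
        ∃ f ∈ insert e E, D.u f ∈ U ∧ D.j f ∉ U := by
      rintro U hU ⟨f, hf, hfU⟩
      by_cases hc : ∃ e ∈ E, D.u e ∈ U
      · obtain ⟨a, ha, h5⟩ := hE U hU hc
        exact ⟨a, mem_insert_of_mem ha, h5⟩
      · rcases mem_insert.1 hf with rfl | hf
        · exact ⟨f, mem_insert_self _ _, hfU, fun h5 => hc (hmet U _ hU h5 hjN)⟩
        · exact absurd ⟨f, hf, hfU⟩ hc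
    have g3 : D.Valid m (X.erase e) O := by
      intro U hU
      have h5 := hg U hU
      have h6 := d_erase (D := D) he U
      unfold h at h5 ⊢
      by_cases hc : D.u e ∈ U ∧ D.j e ∉ U
      · rw [if_pos hc] at h6
        by_contra hlt
        exact hc.2 (hbad U ⟨hU, by unfold h; omega⟩ hc.1)
      · rw [if_neg hc] at h6
        omega
    have g4 : ∀ U, D.L0 U → (∀ f ∈ insert e E, D.u f ∉ U) →
        m + 1 ≤ D.h (X.erase e) O U ∧ 1 ≤ D.d (X.erase e) U := by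
      intro U hU hEU
      have h5 := hg' U hU fun a ha => hEU a (mem_insert_of_mem ha)
      have h6 := d_erase (D := D) he U
      rw [if_neg (fun h => hEU e (mem_insert_self _ _) h.1)] at h6
      unfold h at h5 ⊢
      omega
    obtain ⟨E', h1, h2, h3, h4⟩ := ih _ hlt (X.erase e) (insert e E) rfl g1 g2 g3 g4
    refine ⟨E', (subset_insert _ _).trans h1, h2.trans ?_, h3, ?_⟩
    · intro a ha
      rcases mem_union.1 ha with ha | ha
      · rcases mem_insert.1 ha with rfl | ha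
        · exact mem_union_right _ he
        · exact mem_union_left _ ha
      · exact mem_union_right _ (mem_of_mem_erase ha)
    · have h5 : X.erase e \ E' = X \ E' := by
        ext a
        rw [mem_sdiff, mem_sdiff, mem_erase]
        constructor
        · rintro ⟨⟨-, h6⟩, h7⟩
          exact ⟨h6, h7⟩
        · rintro ⟨h6, h7⟩
          refine ⟨⟨fun h8 => h7 ?_, h6⟩, h7⟩
          rw [h8]
          exact h1 (mem_insert_self _ _)
      rw [← h5]
      exact h4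
  · refine ⟨E, Subset.refl _, subset_union_left, fun U hU => ?_, ?_⟩
    · obtain ⟨x, hx⟩ := hU.1
      exact hE U hU (hmet U x hU hx fun h => hNe ⟨x, h⟩)
    · rw [sdiff_eq_self_of_disjoint hXE]
      exact hg

/-- `E` grows by arcs of `X`; `O` are the other trees. -/
theorem extract (hXE : Disjoint X E)
    (hE : ∀ U, D.L0 U → (∃ e ∈ E, D.u e ∈ U) → ∃ e ∈ E, D.u e ∈ U ∧ D.j e ∉ U)
    (hg : D.Valid m X O)
    (hg' : ∀ U, D.L0 U → (∀ e ∈ E, D.u e ∉ U) → m + 1 ≤ D.h X O U ∧ 1 ≤ D.d X U) :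
    ∃ E', E ⊆ E' ∧ E' ⊆ E ∪ X ∧ (∀ U, D.L0 U → ∃ e ∈ E', D.u e ∈ U ∧ D.j e ∉ U) ∧
      D.Valid m (X \ E') O :=
  extract_aux D O m _ X E rfl hXE hE hg hg'

end Dat

end Pool.Agent.Dts
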