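import Pool.Agent.Dts.Pack
import Pool.Agent.Dij.Res

/-!
Decomposition of the weight-one arcs into dijoins if the digraph has at most two sink components.
-/

namespace Pool.Agent.Dts

open Finset

open Pool.Agent.Dij

variable {V A : Type*} [Fintype V] [DecidableEq V] [Fintype A] [DecidableEq A]

/-- The digraph with arcs from `tail a` to `head a`. -/
def datOf (tail head : A → V) (r t : V) (hrt : ¬ Reach tail head r t) (htr : ¬ Reach tail head t r)
    (hsink : ∀ x : V, Reach tail head x r ∨ Reach tail head x t) : Dat V A where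
  u := tail
  j := head
  R := Reach tail head
  t := fun b => cond b t r
  refl := fun _ => Relation.ReflTransGen.refl
  trans := fun _ _ _ h1 h2 => Relation.ReflTransGen.trans h1 h2
  arc := fun e => Relation.ReflTransGen.single ⟨e, rfl, rfl⟩
  sink := fun x => (hsink x).elim (fun h => ⟨false, h⟩) fun h => ⟨true, h⟩
  ind := fun b => by
    cases b
    · exact hrt
    · exact htr

theorem two_sinks (tail head : A → V) (S : Finset A) (τ : ℕ) (hτ : 1 ≤ τ)
    (hdicut : ∀ U : Finset V, U.Nonempty → U ≠ Finset.univ →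
      (∀ a : A, head a ∈ U → tail a ∈ U) →
      τ ≤ (S.filter (fun a => tail a ∈ U ∧ head a ∉ U)).card)
    (r t : V) (hsink : ∀ x : V, Reach tail head x r ∨ Reach tail head x t) :
    ∃ f : A → Fin τ, ∀ i : Fin τ, ∀ U : Finset V, U.Nonempty → U ≠ Finset.univ →
      (∀ a : A, head a ∈ U → tail a ∈ U) →
      ∃ a ∈ S, f a = i ∧ tail a ∈ U ∧ head a ∉ U := by
  by_cases hrt : Reach tail head r t
  · exact two_sinks_source tail head S τ hτ hdicut t t
      (fun x => Or.inl ((hsink x).elim (fun h => Relation.ReflTransGen.trans h hrt) id))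
      (fun x => ⟨x, Relation.ReflTransGen.refl,
        (hsink x).elim (fun h => Relation.ReflTransGen.trans h hrt) id⟩)
  by_cases htr : Reach tail head t r
  · exact two_sinks_source tail head S τ hτ hdicut r r
      (fun x => Or.inl ((hsink x).elim id fun h => Relation.ReflTransGen.trans h htr))
      (fun x => ⟨x, Relation.ReflTransGen.refl,
        (hsink x).elim id fun h => Relation.ReflTransGen.trans h htr⟩)
  classical
  set D := datOf tail head r t hrt htr hsink with hD
  have hup : ∀ U : Finset V, (∀ a : A, head a ∈ U → tail a ∈ U) → D.Up U :=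
    fun U hU x y hxy hy => closed_reach hU hxy hy
  have hup' : ∀ U : Finset V, D.Up U → ∀ a : A, head a ∈ U → tail a ∈ U :=
    fun U hU a ha => hU _ _ (D.arc a) ha
  have hd : ∀ U : Finset V, D.d S U = (S.filter (fun a => tail a ∈ U ∧ head a ∉ U)).card := by
    intro U
    unfold Dat.d
    congr!
  obtain ⟨p, hp⟩ := Dat.exists_sys (D := D) (I := Bool × Fin τ) (κ := Prod.fst) (S := S) (k := τ)
    (by
      intro b
      have h1 : ((univ : Finset (Bool × Fin τ)).filter fun i => i.1 = b) =
          (univ : Finset (Fin τ)).map ⟨fun c => (b, c), fun c c' h => (Prod.mk.inj h).2⟩ := by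
        ext ⟨b', c⟩
        simp only [mem_filter, mem_univ, true_and, mem_map, Function.Embedding.coeFn_mk,
          Prod.mk.injEq]
        exact ⟨fun h => ⟨c, h.symm, rfl⟩, fun ⟨_, h, _⟩ => h.symm⟩
      rw [h1, card_map, card_univ, Fintype.card_fin])
    (by
      rintro U hne hU ⟨b, hb⟩
      rw [hd]
      exact hdicut U hne (fun h => hb (by rw [h]; exact mem_univ _)) (hup' U hU))
  obtain ⟨F, hF1, hF2, hF3⟩ := Dat.pack (D := D) τ (Bool × Fin τ) Prod.fst S p (by
      intro b
      have h1 : ((univ : Finset (Bool × Fin τ)).filter fun i => i.1 = b) =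
          (univ : Finset (Fin τ)).map ⟨fun c => (b, c), fun c c' h => (Prod.mk.inj h).2⟩ := by
        ext ⟨b', c⟩
        simp only [mem_filter, mem_univ, true_and, mem_map, Function.Embedding.coeFn_mk,
          Prod.mk.injEq]
        exact ⟨fun h => ⟨c, h.symm, rfl⟩, fun ⟨_, h, _⟩ => h.symm⟩
      rw [h1, card_map, card_univ, Fintype.card_fin]) hp
  refine ⟨fun a => if h : ∃ c, a ∈ F c then h.choose else ⟨0, hτ⟩, ?_⟩
  intro i U hne hu hU
  have hb : ∃ b, D.t b ∉ U := by
    by_contra hcon
    push Not at hcon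
    refine hu (eq_univ_iff_forall.2 fun x => ?_)
    obtain ⟨b, hb⟩ := D.sink x
    exact hup U hU x _ hb (hcon b)
  obtain ⟨e, he, heu, hej⟩ := hF3 i U hne (hup U hU) hb
  refine ⟨e, hF1 i he, ?_, heu, hej⟩
  have h1 : ∃ c, e ∈ F c := ⟨i, he⟩
  show (if h : ∃ c, e ∈ F c then h.choose else ⟨0, hτ⟩) = i
  rw [dif_pos h1]
  by_contra hcon
  exact disjoint_left.1 (hF2 _ _ hcon) h1.choose_spec he

end Pool.Agent.Dts
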