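import Pool.Agent.Dts.Sub

/-!
Two trees of different kinds which meet no common tight set and one of which meets every set left by
no arc of the rest.
-/

namespace Pool.Agent.Dts

open Finset

open scoped Classical

namespace Dat

variable {V A I : Type*} [Fintype V] [Fintype A] [Fintype I]
variable {D : Dat V A} {X : Finset A} {T : I → Finset V} {k : ℕ} {κ : I → Bool}

/-- A maximal set with a property containing a given one. -/
theorem exists_max (P : Finset V → Prop) (Z : Finset V) (hZ : P Z) :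
    ∃ K, Z ⊆ K ∧ P K ∧ ∀ Y, P Y → K ⊆ Y → Y = K := by
  obtain ⟨K, h1, h2, h3⟩ := exists_min (fun W => P Wᶜ) Zᶜ (by rw [compl_compl]; exact hZ)
  refine ⟨Kᶜ, ?_, h2, fun Y hY hK => ?_⟩
  · intro x hx
    rw [mem_compl]
    exact fun h => (mem_compl.1 (h1 h)) hx
  · have h4 := h3 Yᶜ (by rw [compl_compl]; exact hY) (by
      intro x hx
      by_contra hxK
      exact (mem_compl.1 hx) (hK (mem_compl.2 hxK)))
    rw [← h4, compl_compl]

/-- Maximal tight sets. -/
def MT (D : Dat V A) (k : ℕ) (X : Finset A) (T : I → Finset V) (L : Finset V) : Prop :=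
  D.Tight k X T L ∧ ∀ Y, D.Tight k X T Y → L ⊆ Y → Y = L

theorem MT_unique (hv : D.Valid k X T) {L L' : Finset V} (h : D.MT k X T L) (h' : D.MT k X T L')
    {x : V} (hx : x ∈ L) (hx' : x ∈ L') : L = L' := by
  obtain ⟨-, h1, -⟩ := tight_inter hv h.1 h'.1 ⟨x, mem_inter.2 ⟨hx, hx'⟩⟩
  exact (h.2 _ h1 subset_union_left).symm.trans (h'.2 _ h1 subset_union_right)

theorem pair (hk : 1 ≤ k) (hc : Cnt κ k) (hv : D.Valid k X T) (ε : I → V) (hε : ∀ i, ε i ∈ T i)
    (hA : ∀ K K2, D.Ess κ X T K → D.Ess κ X T K2 → ∀ i, i ∈ mt T K → i ∈ mt T K2 → K = K2)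
    (hB : ∀ L, D.Tight k X T L → (∀ Y, D.Tight k X T Y → L ⊆ Y → Y = L) →
      (∀ b, ∃ i, κ i = b ∧ i ∈ mt T L) → ∀ i, i ∈ mt T L → ε i ∈ L) :
    ∃ a b, κ a = false ∧ κ b = true ∧
      (∀ U, D.Tight k X T U → ¬ (a ∈ mt T U ∧ b ∈ mt T U)) ∧
      ∀ Z, D.ZZ X Z → a ∈ mt T Z ∨ b ∈ mt T Z := by
  -- two trees of different kinds meeting a common tight set end in a common maximal tight set
  have key1 : ∀ i j, κ i ≠ κ j → ∀ U, D.Tight k X T U → i ∈ mt T U → j ∈ mt T U →
      ∃ L, D.MT k X T L ∧ ε i ∈ L ∧ ε j ∈ L := by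
    intro i j hij U hU hi hj
    obtain ⟨L, h1, h2, h3⟩ := exists_max (D.Tight k X T) U hU
    have hmix : ∀ b, ∃ i, κ i = b ∧ i ∈ mt T L := by
      intro b
      by_cases hb : κ i = b
      · exact ⟨i, hb, mt_mono T h1 hi⟩
      · refine ⟨j, ?_, mt_mono T h1 hj⟩
        cases h4 : κ i <;> cases h5 : κ j <;> cases b <;> simp_all
    exact ⟨L, ⟨h2, h3⟩, hB L h2 h3 hmix i (mt_mono T h1 hi), hB L h2 h3 hmix j (mt_mono T h1 hj)⟩
  -- every tree has a partner
  have key2 : ∀ i, ∃ j, κ j = (!κ i) ∧ ∀ U, D.Tight k X T U → ¬ (i ∈ mt T U ∧ j ∈ mt T U) := by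
    intro i
    by_contra hcon
    push Not at hcon
    have h1 : ∀ j, κ j = (!κ i) → ∃ L, D.MT k X T L ∧ ε i ∈ L ∧ ε j ∈ L := by
      intro j hj
      obtain ⟨U, hU, hi, hj'⟩ := hcon j hj
      exact key1 i j (by rw [hj]; simp) U hU hi hj'
    have h2 : 0 < ((univ : Finset I).filter fun j => κ j = (!κ i)).card := by
      rw [hc]
      omega
    obtain ⟨j0, hj0⟩ := card_pos.1 h2
    obtain ⟨L, hL, hiL, -⟩ := h1 j0 (mem_filter.1 hj0).2
    have h3 : insert i ((univ : Finset I).filter fun j => κ j = (!κ i)) ⊆ mt T L := by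
      intro x hx
      rcases mem_insert.1 hx with rfl | hx
      · exact (mt_iff _ _ _).2 ⟨_, hε _, hiL⟩
      · obtain ⟨L', hL', hiL', hxL'⟩ := h1 x (mem_filter.1 hx).2
        rw [MT_unique hv hL hL' hiL hiL']
        exact (mt_iff _ _ _).2 ⟨_, hε _, hxL'⟩
    have h4 := card_le_card h3
    rw [card_insert_of_notMem, hc] at h4
    · have := tight_card hL.1
      omega
    · rw [mem_filter]
      simp
  -- it is enough that one of the two trees meets every essential set
  have key3 : ∀ i j, κ j = (!κ i) → (∀ U, D.Tight k X T U → ¬ (i ∈ mt T U ∧ j ∈ mt T U)) →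
      (∀ K, D.Ess κ X T K → i ∈ mt T K ∨ j ∈ mt T K) →
      ∃ a b, κ a = false ∧ κ b = true ∧
      (∀ U, D.Tight k X T U → ¬ (a ∈ mt T U ∧ b ∈ mt T U)) ∧
      ∀ Z, D.ZZ X Z → a ∈ mt T Z ∨ b ∈ mt T Z := by
    intro i j hij hP hE
    have hZ : ∀ Z, D.ZZ X Z → i ∈ mt T Z ∨ j ∈ mt T Z := by
      intro Z hZ
      obtain ⟨K, hKZ, hK⟩ := exists_ssc hZ
      by_cases hess : D.Ess κ X T K
      · exact (hE K hess).imp (fun h => mt_mono T hKZ h) (fun h => mt_mono T hKZ h)
      · have h1 : ∃ b, ∀ i, κ i = b → i ∈ mt T K := by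
          by_contra hcon
          push Not at hcon
          exact hess ⟨hK, hcon⟩
        obtain ⟨b, hb⟩ := h1
        by_cases h2 : κ i = b
        · exact Or.inl (mt_mono T hKZ (hb i h2))
        · refine Or.inr (mt_mono T hKZ (hb j ?_))
          rw [hij]
          cases h3 : κ i <;> cases b <;> simp_all
    cases hi : κ i with
    | false => exact ⟨i, j, hi, by rw [hij, hi]; rfl, hP, hZ⟩
    | true =>
      exact ⟨j, i, by rw [hij, hi]; rfl, hi, fun U hU h => hP U hU ⟨h.2, h.1⟩,
        fun Z h => (hZ Z h).symm⟩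
  by_cases h0 : ∃ K, D.Ess κ X T K
  · obtain ⟨K1, hK1⟩ := h0
    by_cases h1 : ∀ K, D.Ess κ X T K → K = K1
    · have h2 : 0 < (mt T K1).card := lt_of_lt_of_le hk (zz_card hv hK1.1.1)
      obtain ⟨i, hi⟩ := card_pos.1 h2
      obtain ⟨j, hj, hP⟩ := key2 i
      exact key3 i j hj hP fun K hK => Or.inl (by rw [h1 K hK]; exact hi)
    · push Not at h1
      obtain ⟨K2, hK2, hne⟩ := h1
      have hdis : Disjoint (mt T K1) (mt T K2) := by
        rw [disjoint_left]
        intro i hi hi2
        exact hne (hA K2 K1 hK2 hK1 i hi2 hi)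
      have hc1 : k ≤ (mt T K1).card := zz_card hv hK1.1.1
      have hc2 : k ≤ (mt T K2).card := zz_card hv hK2.1.1
      have htot : (univ : Finset I).card = k + k := by
        rw [← card_filter_add_card_filter_not (s := (univ : Finset I)) (fun i => κ i = true), hc]
        congr 1
        rw [← hc false]
        congr 1
        ext i
        rw [mem_filter, mem_filter, Bool.not_eq_true]
      have hun : (mt T K1 ∪ mt T K2).card = (mt T K1).card + (mt T K2).card :=
        card_union_of_disjoint hdis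
      have hle : (mt T K1 ∪ mt T K2).card ≤ (univ : Finset I).card := card_le_card (subset_univ _)
      have huniv : mt T K1 ∪ mt T K2 = univ :=
        eq_of_subset_of_card_le (subset_univ _) (by omega)
      have hboth : ∀ K, D.Ess κ X T K → K = K1 ∨ K = K2 := by
        intro K hK
        have h2 : 0 < (mt T K).card := lt_of_lt_of_le hk (zz_card hv hK.1.1)
        obtain ⟨i, hi⟩ := card_pos.1 h2
        have h3 : i ∈ mt T K1 ∪ mt T K2 := by rw [huniv]; exact mem_univ _
        rcases mem_union.1 h3 with h | h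
        · exact Or.inl (hA K K1 hK hK1 i hi h)
        · exact Or.inr (hA K K2 hK hK2 i hi h)
      have htight : ∀ K, D.Ess κ X T K → (mt T K).card = k → D.Tight k X T K := by
        intro K hK hcard
        refine ⟨hK.1.1.1, ?_⟩
        unfold h
        rw [hcard, hK.1.1.2, zero_add]
      have hmixed : ∀ K, D.Ess κ X T K → (mt T K).card = k → ∀ b, ∃ i, κ i = b ∧ i ∈ mt T K := by
        intro K hK hcard b
        by_contra hcon
        push Not at hcon
        have h2 : mt T K ⊆ (univ : Finset I).filter fun i => κ i = (!b) := by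
          intro i hi
          rw [mem_filter]
          refine ⟨mem_univ _, ?_⟩
          have h3 : κ i ≠ b := fun h => hcon i h hi
          cases h4 : κ i <;> cases b <;> simp_all
        have h3 := eq_of_subset_of_card_le h2 (by rw [hc, hcard])
        obtain ⟨i, hi, hi'⟩ := hK.2 (!b)
        refine hi' ?_
        rw [h3, mem_filter]
        exact ⟨mem_univ _, hi⟩
      have hk1 : (mt T K1).card = k := by omega
      have hk2 : (mt T K2).card = k := by omega
      obtain ⟨a, ha, ha'⟩ := hmixed K1 hK1 hk1 false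
      obtain ⟨b, hb, hb'⟩ := hmixed K2 hK2 hk2 true
      refine key3 a b (by rw [ha, hb]; rfl) ?_ ?_
      · rintro U hU ⟨haU, hbU⟩
        obtain ⟨L, hL, haL, hbL⟩ := key1 a b (by rw [ha, hb]; simp) U hU haU hbU
        have hsub : ∀ K, D.Ess κ X T K → (mt T K).card = k → ∀ i, i ∈ mt T K → ε i ∈ L →
            K ⊆ L := by
          intro K hK hcard i hi hiL
          obtain ⟨L1, h1, h2, h3⟩ := exists_max (D.Tight k X T) K (htight K hK hcard)
          have h4 : ε i ∈ L1 := hB L1 h2 h3 (fun b => by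
            obtain ⟨i', h5, h6⟩ := hmixed K hK hcard b
            exact ⟨i', h5, mt_mono T h1 h6⟩) i (mt_mono T h1 hi)
          rw [MT_unique hv hL ⟨h2, h3⟩ hiL h4]
          exact h1
        have h1 := hsub K1 hK1 hk1 a ha' haL
        have h2 := hsub K2 hK2 hk2 b hb' hbL
        have h3 : mt T K1 ∪ mt T K2 ⊆ mt T L := union_subset (mt_mono T h1) (mt_mono T h2)
        have h4 := card_le_card h3
        have h5 := tight_card hL.1
        omega
      · intro K hK
        rcases hboth K hK with h | h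
        · left
          rw [h]
          exact ha'
        · right
          rw [h]
          exact hb'
  · have h2 : 0 < ((univ : Finset I).filter fun j => κ j = false).card := by
      rw [hc]
      omega
    obtain ⟨i, hi⟩ := card_pos.1 h2
    obtain ⟨j, hj, hP⟩ := key2 i
    exact key3 i j hj hP fun K hK => absurd ⟨K, hK⟩ h0

end Dat

end Pool.Agent.Dts
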