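import Pool.Agent.Dts.ClaimA
import Pool.Agent.Dts.ClaimB
import Pool.Agent.Dts.Pair
import Pool.Agent.Dts.Extract
import Pool.Agent.Dts.Exist

/-!
Packing: a system of `k` paths of each kind yields `k` disjoint sets leaving every closed set.
-/

namespace Pool.Agent.Dts

open Finset

open scoped Classical

theorem lt3_wf : WellFounded lt3 := by
  refine Subrelation.wf (r := Prod.Lex (· < ·) (Prod.Lex (· < ·) (· < ·))) ?_
    (WellFounded.prod_lex wellFounded_lt (WellFounded.prod_lex wellFounded_lt wellFounded_lt))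
  rintro ⟨a, b, c⟩ ⟨a', b', c'⟩ h
  rw [Prod.lex_def, Prod.lex_def]
  exact h

namespace Dat

variable {V A : Type*} [Fintype V] [Fintype A]
variable {D : Dat V A}

theorem exists_extr {I : Type*} [Fintype I] {S : Finset A} {k : ℕ} {κ : I → Bool}
    (h : ∃ p, D.Sys k κ S p) : ∃ p, D.Extr k κ S p := by
  obtain ⟨p, hp, hmin⟩ := WellFounded.has_min (InvImage.wf (D.pot k κ S) lt3_wf)
    {p | D.Sys k κ S p} h
  exact ⟨p, hp, fun p' hp' => hmin p' hp'⟩

/-- The trees other than `a` and `b`. -/
theorem card_others {I : Type} [Fintype I] (P : I → Prop) {a b : I} (hab : a ≠ b) :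
    ((univ : Finset I).filter fun i => P i).card =
      ((univ : Finset {i : I // i ≠ a ∧ i ≠ b}).filter fun j => P j.1).card +
        (if P a then 1 else 0) + (if P b then 1 else 0) := by
  have h1 : ((univ : Finset {i : I // i ≠ a ∧ i ≠ b}).filter fun j => P j.1).card =
      (((univ : Finset I).filter fun i => P i).filter fun i => i ≠ a ∧ i ≠ b).card := by
    rw [← card_map (Function.Embedding.subtype fun i : I => i ≠ a ∧ i ≠ b)]
    congr 1
    ext i
    simp only [mem_map, mem_filter, mem_univ, true_and, Function.Embedding.subtype_apply]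
    constructor
    · rintro ⟨j, hj, rfl⟩
      exact ⟨hj, j.2⟩
    · rintro ⟨h1, h2⟩
      exact ⟨⟨i, h2⟩, h1, rfl⟩
  rw [h1, ← card_filter_add_card_filter_not (s := (univ : Finset I).filter fun i => P i)
    (fun i => i ≠ a ∧ i ≠ b), add_assoc]
  congr 1
  have h2 : (((univ : Finset I).filter fun i => P i).filter fun i => ¬ (i ≠ a ∧ i ≠ b)) =
      (({a} : Finset I).filter fun i => P i) ∪ (({b} : Finset I).filter fun i => P i) := by
    ext i
    simp only [mem_filter, mem_univ, true_and, mem_union, mem_singleton]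
    tauto
  rw [h2, card_union_of_disjoint, filter_singleton, filter_singleton]
  · split_ifs <;> simp
  · rw [disjoint_left]
    intro i hi hi'
    rw [mem_filter, mem_singleton] at hi hi'
    exact hab (hi.1.symm.trans hi'.1)

theorem pack (k : ℕ) : ∀ (I : Type) [Fintype I] (κ : I → Bool) (S : Finset A) (p : I → List A),
    Cnt κ k → D.Sys k κ S p →
    ∃ F : Fin k → Finset A, (∀ c, F c ⊆ S) ∧ (∀ c c', c ≠ c' → Disjoint (F c) (F c')) ∧
      ∀ c (U : Finset V), U.Nonempty → D.Up U → (∃ b, D.t b ∉ U) →
        ∃ e ∈ F c, D.u e ∈ U ∧ D.j e ∉ U := by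
  induction k with
  | zero =>
    intro I _ κ S p _ _
    exact ⟨fun _ => ∅, fun c => c.elim0, fun c => c.elim0, fun c => c.elim0⟩
  | succ k ih =>
    intro I _ κ S p0 hc hp0
    obtain ⟨p, hext⟩ := exists_extr ⟨p0, hp0⟩
    have hp := hext.1
    have hε : ∀ i, D.en (D.t (κ i)) (p i) ∈ D.tt p i := by
      intro i
      obtain ⟨-, -, q, e, hq, -, -⟩ := hp.pth i
      unfold tt
      rw [hq, en_concat]
      exact mem_tl.2 ⟨e, by simp, rfl⟩
    obtain ⟨a, b, ha, hb, hab1, hab2⟩ := pair (Nat.succ_le_succ (Nat.zero_le k)) hc hp.val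
      (fun i => D.en (D.t (κ i)) (p i)) hε (fun K K2 hK hK2 i hi hi2 => claimA hext hc hK hK2 i hi hi2)
      (fun L hL hmax hmix i hi => claimB hext (Nat.succ_le_succ (Nat.zero_le k)) hc hL hmax hmix i hi)
    have hab : a ≠ b := by
      rintro rfl
      rw [ha] at hb
      exact Bool.false_ne_true hb
    obtain ⟨X, hX⟩ : ∃ X, X = rest S p := ⟨_, rfl⟩
    have hpv := hp.val
    rw [← hX] at hpv
    have hX' : ∀ e, e ∈ X ↔ e ∈ S ∧ ∀ i, e ∉ p i := fun e => by rw [hX]; exact mem_rest
    rw [← hX] at hab1 hab2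
    set E : Finset A := (p a).toFinset ∪ (p b).toFinset with hEdef
    have hmemE : ∀ e, e ∈ E ↔ e ∈ p a ∨ e ∈ p b := by
      intro e
      rw [hEdef, mem_union, List.mem_toFinset, List.mem_toFinset]
    have hcard : ∀ U, (mt (D.tt p) U).card =
        (mt (fun j : {i : I // i ≠ a ∧ i ≠ b} => D.tt p j.1) U).card +
        (if a ∈ mt (D.tt p) U then 1 else 0) + (if b ∈ mt (D.tt p) U then 1 else 0) := by
      intro U
      have h1 := card_others (fun i => (D.tt p i ∩ U).Nonempty) hab
      have h2 : ∀ i, i ∈ mt (D.tt p) U ↔ (D.tt p i ∩ U).Nonempty := by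
        intro i
        unfold mt
        rw [mem_filter]
        exact ⟨fun h => h.2, fun h => ⟨mem_univ _, h⟩⟩
      simp only [h2]
      unfold mt
      convert h1
    have htail : ∀ U i, i ∈ mt (D.tt p) U ↔ ∃ e ∈ p i, D.u e ∈ U := by
      intro U i
      rw [mt_iff]
      constructor
      · rintro ⟨x, hx, hxU⟩
        obtain ⟨e, he, rfl⟩ := mem_tl.1 hx
        exact ⟨e, he, hxU⟩
      · rintro ⟨e, he, heU⟩
        exact ⟨_, mem_tl.2 ⟨e, he, rfl⟩, heU⟩
    have hleave : ∀ U i, D.Up U → D.t (κ i) ∉ U → (∃ e ∈ p i, D.u e ∈ U) →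
        ∃ e ∈ p i, D.u e ∈ U ∧ D.j e ∉ U := fun U i hU hi h =>
      fol_leave (hp.pth i).1 hU hi h
    obtain ⟨E', hE1, hE2, hE3, hE4⟩ := extract (D := D) (X := X) (E := E)
      (O := fun j : {i : I // i ≠ a ∧ i ≠ b} => D.tt p j.1) (m := k)
      (by
        rw [disjoint_left]
        intro e he heE
        rcases (hmemE e).1 heE with h | h
        · exact ((hX' e).1 he).2 a h
        · exact ((hX' e).1 he).2 b h)
      (by
        rintro U hU ⟨e, he, heU⟩
        rcases (hmemE e).1 he with h | h
        · obtain ⟨f, hf, hf'⟩ := hleave U a hU.2.1 (hU.2.2 _) ⟨e, h, heU⟩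
          exact ⟨f, (hmemE f).2 (Or.inl hf), hf'⟩
        · obtain ⟨f, hf, hf'⟩ := hleave U b hU.2.1 (hU.2.2 _) ⟨e, h, heU⟩
          exact ⟨f, (hmemE f).2 (Or.inr hf), hf'⟩)
      (by
        intro U hU
        have h1 := hpv U hU
        have h2 := hcard U
        unfold h at h1 ⊢
        by_cases h3 : D.h X (D.tt p) U = k + 1
        · have h4 := hab1 U ⟨hU, h3⟩
          by_cases h5 : a ∈ mt (D.tt p) U
          · have h6 : b ∉ mt (D.tt p) U := fun h6 => h4 ⟨h5, h6⟩
            rw [if_pos h5, if_neg h6] at h2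
            omega
          · rw [if_neg h5] at h2
            split_ifs at h2 <;> omega
        · unfold h at h3
          split_ifs at h2 <;> omega)
      (by
        intro U hU hn
        have h1 := hpv U hU
        have h2 := hcard U
        have h5 : a ∉ mt (D.tt p) U := fun h => by
          obtain ⟨e, he, heU⟩ := (htail U a).1 h
          exact hn e ((hmemE e).2 (Or.inl he)) heU
        have h6 : b ∉ mt (D.tt p) U := fun h => by
          obtain ⟨e, he, heU⟩ := (htail U b).1 h
          exact hn e ((hmemE e).2 (Or.inr he)) heU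
        rw [if_neg h5, if_neg h6] at h2
        constructor
        · unfold h at h1 ⊢
          omega
        · by_contra hcon
          rcases hab2 U ⟨hU, by omega⟩ with h | h
          · exact h5 h
          · exact h6 h)
    have hES : E ⊆ S := by
      intro e he
      rcases (hmemE e).1 he with h | h
      · exact hp.sub a e h
      · exact hp.sub b e h
    have hE'S : E' ⊆ S := fun e he =>
      (mem_union.1 (hE2 he)).elim (fun h => hES h) fun h => ((hX' e).1 h).1
    have hrest : rest (S \ E') (fun j : {i : I // i ≠ a ∧ i ≠ b} => p j.1) = X \ E' := by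
      ext e
      rw [mem_rest, mem_sdiff, mem_sdiff, hX']
      constructor
      · rintro ⟨⟨h1, h2⟩, h3⟩
        refine ⟨⟨h1, fun i => ?_⟩, h2⟩
        by_cases h4 : i = a
        · rw [h4]
          exact fun h => h2 (hE1 ((hmemE e).2 (Or.inl h)))
        · by_cases h5 : i = b
          · rw [h5]
            exact fun h => h2 (hE1 ((hmemE e).2 (Or.inr h)))
          · exact h3 ⟨i, h4, h5⟩
      · rintro ⟨⟨h1, h2⟩, h3⟩
        exact ⟨⟨h1, h3⟩, fun j => h2 j.1⟩
    have hsys : D.Sys k (fun j : {i : I // i ≠ a ∧ i ≠ b} => κ j.1) (S \ E')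
        (fun j => p j.1) := by
      refine ⟨?_, ?_, fun j => hp.pth j.1, ?_⟩
      · intro j e he
        rw [mem_sdiff]
        refine ⟨hp.sub j.1 e he, fun h => ?_⟩
        rcases mem_union.1 (hE2 h) with h | h
        · rcases (hmemE e).1 h with h | h
          · exact hp.dis j.1 a j.2.1 e he h
          · exact hp.dis j.1 b j.2.2 e he h
        · exact ((hX' e).1 h).2 j.1 he
      · intro j j' hjj e he
        exact hp.dis j.1 j'.1 (fun h => hjj (Subtype.ext h)) e he
      · rw [hrest]
        exact hE4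
    have hcnt : Cnt (fun j : {i : I // i ≠ a ∧ i ≠ b} => κ j.1) k := by
      intro c
      have h1 : ((univ : Finset I).filter fun i => κ i = c).card =
          ((univ : Finset {i : I // i ≠ a ∧ i ≠ b}).filter fun j => κ j.1 = c).card +
            (if κ a = c then 1 else 0) + (if κ b = c then 1 else 0) := by
        convert card_others (fun i => κ i = c) hab
      rw [hc c] at h1
      have h2 : (if κ a = c then 1 else 0) + (if κ b = c then 1 else 0) = 1 := by
        rw [ha, hb]
        cases c <;> simp
      show ((univ : Finset {i : I // i ≠ a ∧ i ≠ b}).filter fun j => κ j.1 = c).card = k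
      omega
    obtain ⟨F, hF1, hF2, hF3⟩ := ih {i : I // i ≠ a ∧ i ≠ b} _ _ _ hcnt hsys
    refine ⟨Fin.cons E' F, ?_, ?_, ?_⟩
    · intro c
      refine Fin.cases ?_ (fun c => ?_) c
      · rw [Fin.cons_zero]
        exact hE'S
      · rw [Fin.cons_succ]
        exact (hF1 c).trans sdiff_subset
    · intro c c'
      refine Fin.cases ?_ (fun c => ?_) c
      · refine Fin.cases ?_ (fun c' => ?_) c'
        · intro h
          exact absurd rfl h
        · intro _
          rw [Fin.cons_zero, Fin.cons_succ, disjoint_left]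
          intro e he he'
          exact (mem_sdiff.1 (hF1 c' he')).2 he
      · refine Fin.cases ?_ (fun c' => ?_) c'
        · intro _
          rw [Fin.cons_zero, Fin.cons_succ, disjoint_left]
          intro e he he'
          exact (mem_sdiff.1 (hF1 c he)).2 he'
        · intro h
          rw [Fin.cons_succ, Fin.cons_succ]
          exact hF2 c c' fun h' => h (by rw [h'])
    · intro c
      refine Fin.cases ?_ (fun c => ?_) c
      · intro U hne hU hb'
        rw [Fin.cons_zero]
        by_cases h0 : ∀ b, D.t b ∉ U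
        · exact hE3 U ⟨hne, hU, h0⟩
        · push Not at h0
          obtain ⟨b1, hb1⟩ := h0
          obtain ⟨b2, hb2⟩ := hb'
          have key : ∀ i, κ i = b2 → (∀ e ∈ p i, e ∈ E) →
              ∃ e ∈ E', D.u e ∈ U ∧ D.j e ∉ U := by
            intro i hi hsub
            obtain ⟨-, -, q, e, hq, -, hC⟩ := hp.pth i
            obtain ⟨f, hf, hf'⟩ := hleave U i hU (by rw [hi]; exact hb2)
              ⟨e, by rw [hq]; simp, hU _ _ (hC b1) hb1⟩
            exact ⟨f, hE1 (hsub f hf), hf'⟩
          cases b2 with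
          | false => exact key a ha fun e he => (hmemE e).2 (Or.inl he)
          | true => exact key b hb fun e he => (hmemE e).2 (Or.inr he)
      · rw [Fin.cons_succ]
        exact hF3 c

end Dat

end Pool.Agent.Dts
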