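import Pool.Agent.Dts.Sub

/-!
Walks and paths.
-/

namespace Pool.Agent.Dts

open Finset

open scoped Classical

namespace Dat

variable {V A I : Type*} [Fintype V] [Fintype A] [Fintype I]
variable {D : Dat V A} {X S : Finset A} {U K L : Finset V} {k : ℕ} {i : I}
  {b : Bool} {e : A} {κ : I → Bool}

theorem mem_tl {p : List A} {x : V} : x ∈ D.tl p ↔ ∃ e ∈ p, D.u e = x := by
  unfold tl
  rw [List.mem_toFinset, List.mem_map]

theorem fol_append (D : Dat V A) (x : V) (l l' : List A) :
    D.Fol x (l ++ l') ↔ D.Fol x l ∧ D.Fol (D.en x l) l' := by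
  induction l generalizing x with
  | nil => simp [Fol, en]
  | cons e l ih =>
    rw [List.cons_append]
    simp only [Fol, en]
    rw [ih, and_assoc]

theorem en_append (D : Dat V A) (x : V) (l l' : List A) :
    D.en x (l ++ l') = D.en (D.en x l) l' := by
  induction l generalizing x with
  | nil => simp [en]
  | cons e l ih =>
    rw [List.cons_append]
    simp only [en]
    exact ih _

theorem en_concat (D : Dat V A) (x : V) (l : List A) (e : A) : D.en x (l ++ [e]) = D.u e := by
  rw [en_append]
  simp [en]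

/-- A walk starting outside a closed set and having a tail inside has an arc leaving the set. -/
theorem fol_leave {x : V} {l : List A} (hl : D.Fol x l) (hU : D.Up U) (hx : x ∉ U)
    (h : ∃ e ∈ l, D.u e ∈ U) : ∃ e ∈ l, D.u e ∈ U ∧ D.j e ∉ U := by
  induction l generalizing x with
  | nil => obtain ⟨e, he, -⟩ := h; simp at he
  | cons e l ih =>
    obtain ⟨h1, h2⟩ := hl
    by_cases hu : D.u e ∈ U
    · exact ⟨e, by simp, hu, fun hj => hx (hU _ _ h1 hj)⟩
    · obtain ⟨f, hf, hfu⟩ := h
      rcases List.mem_cons.1 hf with rfl | hf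
      · exact absurd hfu hu
      · obtain ⟨g, hg, hg'⟩ := ih h2 hu ⟨f, hf, hfu⟩
        exact ⟨g, List.mem_cons_of_mem _ hg, hg'⟩

/-- The last vertex is the start or a tail. -/
theorem en_mem (D : Dat V A) (x : V) (l : List A) :
    (l = [] ∧ D.en x l = x) ∨ ∃ q e, l = q ++ [e] ∧ D.en x l = D.u e := by
  rcases List.eq_nil_or_concat l with h | ⟨q, e, h⟩
  · exact Or.inl ⟨h, by rw [h]; rfl⟩
  · rw [List.concat_eq_append] at h
    exact Or.inr ⟨q, e, h, by rw [h, en_concat]⟩

end Dat

end Pool.Agent.Dts
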