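import Pool.Agent.Dts.Engine
import Pool.Agent.Dts.Drop

/-!
Truncation of a path of a system and its completion.
-/

namespace Pool.Agent.Dts

open Finset

open scoped Classical

namespace Dat

variable {V A I : Type*} [Fintype V] [Fintype A] [Fintype I]
variable {D : Dat V A} {S : Finset A} {L : Finset V} {k : ℕ} {κ : I → Bool} {p : I → List A}

theorem Sys.kd (hp : D.Sys k κ S p) : D.Kd κ (D.tt p) := fun i _ hx => (hp.pth i).reach hx

theorem mem_rest {e : A} : e ∈ rest S p ↔ e ∈ S ∧ ∀ i, e ∉ p i := by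
  unfold rest
  rw [mem_filter]

theorem en_notMem {b : Bool} {q : List A} {U : Finset V} (hb : D.t b ∉ U)
    (h : ∀ x ∈ D.tl q, x ∉ U) : D.en (D.t b) q ∉ U := by
  rcases en_mem D (D.t b) q with ⟨-, h1⟩ | ⟨q', e, hq, h1⟩
  · rw [h1]
    exact hb
  · rw [h1]
    exact h _ (mem_tl.2 ⟨e, by rw [hq]; simp, rfl⟩)

/-- Truncation of the path `i`. -/
theorem Sys.trunc (hp : D.Sys k κ S p) (i : I) {q q2 : List A} (hq : p i = q ++ q2) :
    D.Drp (rest S p) q2.toFinset (D.tt p) i (D.tl q) := by
  refine ⟨?_, ?_, ?_⟩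
  · rw [disjoint_left]
    intro e he he2
    rw [List.mem_toFinset] at he2
    exact (mem_rest.1 he).2 i (by rw [hq]; exact List.mem_append_right _ he2)
  · intro x hx
    obtain ⟨e, he, rfl⟩ := mem_tl.1 hx
    exact mem_tl.2 ⟨e, by rw [hq]; exact List.mem_append_left _ he, rfl⟩
  · intro U hU hi hn
    obtain ⟨x, hx, hxU⟩ := (mt_iff _ _ _).1 hi
    obtain ⟨e, he, rfl⟩ := mem_tl.1 hx
    have h1 := (hp.pth i).1
    rw [hq, fol_append] at h1
    rw [hq, List.mem_append] at he
    have he2 : e ∈ q2 := he.resolve_left fun h => hn _ (mem_tl.2 ⟨e, h, rfl⟩) hxU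
    obtain ⟨f, hf, hf'⟩ := fol_leave h1.2 hU.2.1 (en_notMem (hU.2.2 _) hn) ⟨e, he2, hxU⟩
    exact ⟨f, List.mem_toFinset.2 hf, hf'⟩

/-- Completion of a truncated path. -/
theorem reend (hp : D.Sys k κ S p) (i : I) {q q2 : List A} (hq : p i = q ++ q2) (hq2 : q2 ≠ [])
    (Φ : Finset A → Finset V → Prop)
    (hΦ : ∀ X W, Φ X W → D.Valid k X (Function.update (D.tt p) i W))
    (hstep : ∀ X W, Φ X W → (∀ x ∈ W, D.R x (D.t (κ i)) ∧ ¬ D.C x) →
      ∃ e ∈ X, D.u e ∈ L ∧ D.u e ∈ D.N (κ i) W ∧ D.j e ∉ D.N (κ i) W ∧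
        Φ (X.erase e) (insert (D.u e) W))
    (h0 : Φ (rest S p ∪ q2.toFinset) (D.tl q)) :
    ∃ X W n l p', Φ X W ∧ p' = Function.update p i (q.take n ++ l) ∧ D.Sys k κ S p' ∧
      (∀ e ∈ l, D.u e ∈ L) ∧
      D.rE κ (rest S p') (D.tt p') ≤ D.rE κ X (Function.update (D.tt p) i W) ∧
      ∀ x y, D.rel k (rest S p') (D.tt p') x y →
        D.rel k X (Function.update (D.tt p) i W) x y := by
  obtain ⟨hfol, hnd, q', e', hqe, hqC, hC⟩ := hp.pth i
  have hnd' : (q ++ q2).Nodup := hq ▸ hnd
  have hqp : ∀ e ∈ q, e ∈ p i := fun e he => by rw [hq]; exact List.mem_append_left _ he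
  have hq2p : ∀ e ∈ q2, e ∈ p i := fun e he => by rw [hq]; exact List.mem_append_right _ he
  have hqX : ∀ e ∈ q, e ∉ rest S p ∪ q2.toFinset := by
    intro e he h
    rcases mem_union.1 h with h | h
    · exact (mem_rest.1 h).2 i (hqp e he)
    · rw [List.mem_toFinset] at h
      exact (List.disjoint_of_nodup_append hnd') he h
  have hqC' : ∀ e ∈ q, ¬ D.C (D.u e) := by
    intro e he
    rcases List.eq_nil_or_concat q2 with h | ⟨q3, e3, h⟩
    · exact absurd h hq2
    · rw [List.concat_eq_append] at h
      rw [hq, h, ← List.append_assoc] at hqe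
      have := List.append_inj_left' hqe rfl
      exact hqC e (by rw [← this]; exact List.mem_append_left _ he)
  have hX0S : ∀ e ∈ rest S p ∪ q2.toFinset, e ∈ S ∧ ∀ i', i' ≠ i → e ∉ p i' := by
    intro e he
    rcases mem_union.1 he with h | h
    · exact ⟨(mem_rest.1 h).1, fun i' _ => (mem_rest.1 h).2 i'⟩
    · rw [List.mem_toFinset] at h
      exact ⟨hp.sub i e (hq2p e h), fun i' hi' => hp.dis i i' hi'.symm e (hq2p e h)⟩
  obtain ⟨X, W, n, l, h1, h2, h3, h4, h5, h6, h7⟩ := engine (b := κ i) Φ
    (fun X W _ h h' => hstep X W h h') h0 ((D.fol_append _ _ _).1 (hq ▸ hfol)).1 hqC'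
    (List.Nodup.of_append_left hnd') hqX
  set X0 := rest S p ∪ q2.toFinset with hX0
  set Y : Finset A := (q.drop n).toFinset ∪ ((X0 \ X) \ l.toFinset) with hY
  set p' := Function.update p i (q.take n ++ l) with hp'
  have hpi : p' i = q.take n ++ l := Function.update_self _ _ _
  have hpi' : ∀ i', i' ≠ i → p' i' = p i' := fun i' h => Function.update_of_ne h _ _
  have hndq : (q.take n ++ q.drop n).Nodup := by
    rw [List.take_append_drop]
    exact List.Nodup.of_append_left hnd'
  have hrest : rest S p' = X ∪ Y := by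
    ext e
    rw [mem_rest, mem_union, hY, mem_union, mem_sdiff, mem_sdiff, List.mem_toFinset,
      List.mem_toFinset]
    constructor
    · rintro ⟨heS, hep⟩
      have hei := hep i
      rw [hpi, List.mem_append, not_or] at hei
      by_cases heX0 : e ∈ X0
      · by_cases heX : e ∈ X
        · exact Or.inl heX
        · exact Or.inr (Or.inr ⟨⟨heX0, heX⟩, hei.2⟩)
      · right
        left
        have h8 : e ∈ q := by
          by_contra h9
          refine heX0 ?_
          rw [hX0, mem_union, mem_rest, List.mem_toFinset]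
          by_cases h10 : e ∈ q2
          · exact Or.inr h10
          · left
            refine ⟨heS, fun i' => ?_⟩
            by_cases h11 : i' = i
            · rw [h11, hq, List.mem_append, not_or]
              exact ⟨h9, h10⟩
            · rw [← hpi' i' h11]
              exact hep i'
        rw [← List.take_append_drop n q, List.mem_append] at h8
        exact h8.resolve_left hei.1
    · rintro (heX | heY | ⟨⟨heX0, heX⟩, hel⟩)
      · refine ⟨(hX0S e (h2 heX)).1, fun i' => ?_⟩
        by_cases h11 : i' = i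
        · rw [h11, hpi, List.mem_append, not_or]
          exact ⟨fun h => hqX e (List.mem_of_mem_take h) (h2 heX), fun h => (h4 e h).2 heX⟩
        · rw [hpi' i' h11]
          exact (hX0S e (h2 heX)).2 i' h11
      · have heq : e ∈ q := List.mem_of_mem_drop heY
        refine ⟨hp.sub i e (hqp e heq), fun i' => ?_⟩
        by_cases h11 : i' = i
        · rw [h11, hpi, List.mem_append, not_or]
          exact ⟨fun h => (List.disjoint_of_nodup_append hndq) h heY, fun h => hqX e heq (h4 e h).1⟩
        · rw [hpi' i' h11]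
          exact hp.dis i i' (Ne.symm h11) e (hqp e heq)
      · refine ⟨(hX0S e heX0).1, fun i' => ?_⟩
        by_cases h11 : i' = i
        · rw [h11, hpi, List.mem_append, not_or]
          exact ⟨fun h => hqX e (List.mem_of_mem_take h) heX0, hel⟩
        · rw [hpi' i' h11]
          exact (hX0S e heX0).2 i' h11
  have htt : D.tt p' = Function.update (Function.update (D.tt p) i W) i
      (D.tl (q.take n ++ l)) := by
    rw [Function.update_idem]
    funext i'
    by_cases h11 : i' = i
    · rw [h11, Function.update_self]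
      unfold tt
      rw [hpi]
    · rw [Function.update_of_ne h11]
      unfold tt
      rw [hpi' i' h11]
  have hdrp : D.Drp X Y (Function.update (D.tt p) i W) i (D.tl (q.take n ++ l)) := by
    refine ⟨?_, ?_, ?_⟩
    · rw [disjoint_left]
      intro e he heY
      rw [hY, mem_union, mem_sdiff, mem_sdiff, List.mem_toFinset] at heY
      rcases heY with heY | heY
      · exact hqX e (List.mem_of_mem_drop heY) (h2 he)
      · exact heY.1.2 he
    · rw [Function.update_self]
      exact h6
    · intro U hU hm hn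
      rw [mt_iff, Function.update_self] at hm
      obtain ⟨e, he, he'⟩ := h7 U hU.2.1 (hU.2.2 _) hm hn
      refine ⟨e, ?_, he'⟩
      rw [hY, mem_union, mem_sdiff, mem_sdiff, List.mem_toFinset, List.mem_toFinset]
      exact he.imp id fun h => ⟨⟨h.1, h.2.1⟩, h.2.2⟩
  have hval : D.Valid k (rest S p') (D.tt p') := by
    rw [hrest, htt]
    exact drop_valid hdrp (hΦ X W h1)
  refine ⟨X, W, n, l, p', h1, rfl, ⟨?_, ?_, ?_, hval⟩, h5, ?_, ?_⟩
  · intro i' e he
    by_cases h11 : i' = i
    · rw [h11, hpi, List.mem_append] at he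
      rcases he with he | he
      · exact hp.sub i e (hqp e (List.mem_of_mem_take he))
      · exact (hX0S e (h4 e he).1).1
    · rw [hpi' i' h11] at he
      exact hp.sub i' e he
  · intro i1 i2 h12 e he1 he2
    by_cases h11 : i1 = i
    · have h22 : i2 ≠ i := fun h => h12 (h11.trans h.symm)
      rw [h11, hpi, List.mem_append] at he1
      rw [hpi' i2 h22] at he2
      rcases he1 with he | he
      · exact hp.dis i i2 h22.symm e (hqp e (List.mem_of_mem_take he)) he2
      · exact (hX0S e (h4 e he).1).2 i2 h22 he2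
    · rw [hpi' i1 h11] at he1
      by_cases h22 : i2 = i
      · rw [h22, hpi, List.mem_append] at he2
        rcases he2 with he | he
        · exact hp.dis i i1 (Ne.symm h11) e (hqp e (List.mem_of_mem_take he)) he1
        · exact (hX0S e (h4 e he).1).2 i1 h11 he1
      · rw [hpi' i2 h22] at he2
        exact hp.dis i1 i2 h12 e he1 he2
  · intro i'
    by_cases h11 : i' = i
    · rw [h11, hpi]
      exact h3
    · rw [hpi' i' h11]
      exact hp.pth i'
  · rw [hrest, htt]
    exact drop_rE hdrp
  · rintro x y ⟨U, hU, hx, hy⟩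
    rw [hrest, htt] at hU
    exact ⟨U, drop_tight hdrp (hΦ X W h1) hU, hx, hy⟩

end Dat

end Pool.Agent.Dts
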