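import Pool.Agent.Dts.Defs

/-!
Submodularity and its consequences for tight sets and for sets left by no arc.
-/

namespace Pool.Agent.Dts

open Finset

open scoped Classical

variable {V A I : Type*} [Fintype V] [Fintype A] [Fintype I]

theorem mt_iff (T : I → Finset V) (U : Finset V) (i : I) : i ∈ mt T U ↔ ∃ x ∈ T i, x ∈ U := by
  unfold mt
  rw [mem_filter]
  constructor
  · rintro ⟨-, x, hx⟩
    rw [mem_inter] at hx
    exact ⟨x, hx.1, hx.2⟩
  · rintro ⟨x, h1, h2⟩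
    exact ⟨mem_univ _, x, mem_inter.2 ⟨h1, h2⟩⟩

theorem mt_mono (T : I → Finset V) {U W : Finset V} (h : U ⊆ W) : mt T U ⊆ mt T W := by
  intro i hi
  rw [mt_iff] at hi ⊢
  obtain ⟨x, h1, h2⟩ := hi
  exact ⟨x, h1, h h2⟩

theorem mt_union (T : I → Finset V) (U W : Finset V) : mt T (U ∪ W) = mt T U ∪ mt T W := by
  ext i
  rw [mem_union, mt_iff, mt_iff, mt_iff]
  constructor
  · rintro ⟨x, h1, h2⟩
    rcases mem_union.1 h2 with h | h
    · exact Or.inl ⟨x, h1, h⟩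
    · exact Or.inr ⟨x, h1, h⟩
  · rintro (⟨x, h1, h2⟩ | ⟨x, h1, h2⟩)
    · exact ⟨x, h1, mem_union_left _ h2⟩
    · exact ⟨x, h1, mem_union_right _ h2⟩

theorem mt_inter (T : I → Finset V) (U W : Finset V) : mt T (U ∩ W) ⊆ mt T U ∩ mt T W :=
  subset_inter (mt_mono T inter_subset_left) (mt_mono T inter_subset_right)

theorem mt_card_sub (T : I → Finset V) (U W : Finset V) :
    (mt T (U ∩ W)).card + (mt T (U ∪ W)).card ≤ (mt T U).card + (mt T W).card := by
  rw [mt_union]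
  have h1 := card_le_card (mt_inter T U W)
  have h2 := card_union_add_card_inter (mt T U) (mt T W)
  omega

namespace Dat

variable {D : Dat V A} {X X' : Finset A} {T : I → Finset V} {U W K Z : Finset V} {k : ℕ}

theorem d_mono (h : X' ⊆ X) (U : Finset V) : D.d X' U ≤ D.d X U :=
  card_le_card (filter_subset_filter _ h)

theorem d_sub (D : Dat V A) (X : Finset A) (U W : Finset V) :
    D.d X (U ∩ W) + D.d X (U ∪ W) ≤ D.d X U + D.d X W := by
  unfold d
  rw [card_filter, card_filter, card_filter, card_filter, ← sum_add_distrib, ← sum_add_distrib]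
  refine sum_le_sum fun e _ => ?_
  by_cases h1 : D.u e ∈ U <;> by_cases h2 : D.u e ∈ W <;> by_cases h3 : D.j e ∈ U <;>
    by_cases h4 : D.j e ∈ W <;> simp [h1, h2, h3, h4]

theorem h_sub (D : Dat V A) (X : Finset A) (T : I → Finset V) (U W : Finset V) :
    D.h X T (U ∩ W) + D.h X T (U ∪ W) ≤ D.h X T U + D.h X T W := by
  unfold h
  have h1 := D.d_sub X U W
  have h2 := mt_card_sub T U W
  omega

theorem Up.inter (h1 : D.Up U) (h2 : D.Up W) : D.Up (U ∩ W) := fun x y hxy hy => by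
  rw [mem_inter] at hy ⊢
  exact ⟨h1 x y hxy hy.1, h2 x y hxy hy.2⟩

theorem Up.union (h1 : D.Up U) (h2 : D.Up W) : D.Up (U ∪ W) := fun x y hxy hy => by
  rw [mem_union] at hy ⊢
  exact hy.imp (h1 x y hxy) (h2 x y hxy)

theorem L0.inter (h1 : D.L0 U) (h2 : D.Up W) (h : (U ∩ W).Nonempty) : D.L0 (U ∩ W) :=
  ⟨h, h1.2.1.inter h2, fun b hb => h1.2.2 b (mem_inter.1 hb).1⟩

theorem L0.union (h1 : D.L0 U) (h2 : D.L0 W) : D.L0 (U ∪ W) :=
  ⟨h1.1.mono subset_union_left, h1.2.1.union h2.2.1,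
    fun b hb => (mem_union.1 hb).elim (h1.2.2 b) (h2.2.2 b)⟩

theorem tight_inter (hv : D.Valid k X T) (hU : D.Tight k X T U) (hW : D.Tight k X T W)
    (hne : (U ∩ W).Nonempty) :
    D.Tight k X T (U ∩ W) ∧ D.Tight k X T (U ∪ W) ∧ mt T (U ∩ W) = mt T U ∩ mt T W := by
  have h1 := hU.1.inter hW.1.2.1 hne
  have h2 := hU.1.union hW.1
  have h3 := hv _ h1
  have h4 := hv _ h2
  have h5 := D.h_sub X T U W
  have h6 := hU.2
  have h7 := hW.2
  refine ⟨⟨h1, by omega⟩, ⟨h2, by omega⟩, eq_of_subset_of_card_le (mt_inter T U W) ?_⟩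
  have h8 := D.d_sub X U W
  have h9 := card_union_add_card_inter (mt T U) (mt T W)
  rw [← mt_union] at h9
  unfold h at *
  omega

theorem zz_inter (hU : D.ZZ X U) (hW : D.ZZ X W) (hne : (U ∩ W).Nonempty) : D.ZZ X (U ∩ W) := by
  refine ⟨hU.1.inter hW.1.2.1 hne, ?_⟩
  have h8 := D.d_sub X U W
  have h1 := hU.2
  have h2 := hW.2
  omega

theorem zz_union (hU : D.ZZ X U) (hW : D.ZZ X W) : D.ZZ X (U ∪ W) := by
  refine ⟨hU.1.union hW.1, ?_⟩
  have h8 := D.d_sub X U W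
  have h1 := hU.2
  have h2 := hW.2
  omega

/-- A tight set and a set left by no arc. -/
theorem tight_zz (hv : D.Valid k X T) (hU : D.Tight k X T U) (hZ : D.ZZ X Z)
    (hne : (U ∩ Z).Nonempty) :
    D.Tight k X T (U ∩ Z) ∧ mt T (U ∩ Z) = mt T U ∧ D.ZZ X (U ∪ Z) ∧ mt T U ⊆ mt T Z := by
  have h1 := hU.1.inter hZ.1.2.1 hne
  have h2 := hU.1.union hZ.1
  have h3 := hv _ h1
  have h5 := D.h_sub X T U Z
  have h6 := hU.2
  have h7 := hZ.2
  have h8 := D.d_sub X U Z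
  have h9 := mt_card_sub T U Z
  have h10 : (mt T Z).card ≤ (mt T (U ∪ Z)).card := card_le_card (mt_mono T subset_union_right)
  unfold h at *
  have h11 : mt T Z = mt T (U ∪ Z) :=
    eq_of_subset_of_card_le (mt_mono T subset_union_right) (by omega)
  refine ⟨⟨h1, by unfold h; omega⟩,
    eq_of_subset_of_card_le (mt_mono T inter_subset_left) (by omega), ⟨h2, by omega⟩, ?_⟩
  rw [h11]
  exact mt_mono T subset_union_left

/-- A minimal set with a property inside a given one. -/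
theorem exists_min (P : Finset V → Prop) (Z : Finset V) (hZ : P Z) :
    ∃ K, K ⊆ Z ∧ P K ∧ ∀ Y, P Y → Y ⊆ K → Y = K := by
  induction Z using Finset.strongInduction with
  | H Z ih =>
    by_cases h : ∃ Y, Y ⊂ Z ∧ P Y
    · obtain ⟨Y, h1, h2⟩ := h
      obtain ⟨K, hK, h3⟩ := ih Y h1 h2
      exact ⟨K, hK.trans h1.1, h3⟩
    · refine ⟨Z, Subset.refl _, hZ, fun Y hY hs => ?_⟩
      by_contra hne
      exact h ⟨Y, hs.ssubset_of_ne hne, hY⟩

theorem exists_ssc (h : D.ZZ X Z) : ∃ K, K ⊆ Z ∧ D.SSC X K := by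
  obtain ⟨K, h1, h2, h3⟩ := exists_min (D.ZZ X) Z h
  exact ⟨K, h1, h2, h3⟩

theorem ssc_sub (hK : D.SSC X K) (hZ : D.ZZ X Z) (hne : (K ∩ Z).Nonempty) : K ⊆ Z := by
  have h := hK.2 _ (zz_inter hK.1 hZ hne) inter_subset_left
  rw [← h]
  exact inter_subset_right

theorem ssc_eq (hK : D.SSC X K) (hZ : D.SSC X Z) (hne : (K ∩ Z).Nonempty) : K = Z :=
  hZ.2 K hK.1 (ssc_sub hK hZ.1 hne)

theorem zz_card (hv : D.Valid k X T) (hZ : D.ZZ X Z) : k ≤ (mt T Z).card := by
  have h1 := hv _ hZ.1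
  have h2 := hZ.2
  unfold h at h1
  omega

theorem tight_card (hU : D.Tight k X T U) : (mt T U).card ≤ k := by
  have h1 := hU.2
  unfold h at h1
  omega

theorem zz_mono (h : X' ⊆ X) (hU : D.ZZ X U) : D.ZZ X' U := by
  refine ⟨hU.1, ?_⟩
  have h1 := d_mono (D := D) h U
  have h2 := hU.2
  omega

/-- If a set is left by fewer arcs than another one, then some arc leaves the second and not the
first. -/
theorem exists_arc (h : D.d X W < D.d X U) :
    ∃ e ∈ X, D.u e ∈ U ∧ D.j e ∉ U ∧ ¬ (D.u e ∈ W ∧ D.j e ∉ W) := by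
  obtain ⟨e, he1, he2⟩ := exists_mem_notMem_of_card_lt_card h
  rw [mem_filter] at he1 he2
  exact ⟨e, he1.1, he1.2.1, he1.2.2, fun h => he2 ⟨he1.1, h⟩⟩

theorem d_zero_iff : D.d X U = 0 ↔ ∀ e ∈ X, D.u e ∈ U → D.j e ∈ U := by
  unfold d
  rw [card_eq_zero, filter_eq_empty_iff]
  constructor
  · intro h e he hu
    by_contra hj
    exact h he ⟨hu, hj⟩
  · rintro h e he ⟨hu, hj⟩
    exact hj (h e he hu)

theorem d_erase {e : A} (he : e ∈ X) (U : Finset V) :
    D.d (X.erase e) U + (if D.u e ∈ U ∧ D.j e ∉ U then 1 else 0) = D.d X U := by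
  unfold d
  rw [filter_erase]
  split_ifs with h
  · exact card_erase_add_one (mem_filter.2 ⟨he, h⟩)
  · rw [erase_eq_of_notMem]
    · rfl
    · exact fun h' => h (mem_filter.1 h').2

theorem d_union {Y : Finset A} (hd : Disjoint X Y) (U : Finset V) :
    D.d (X ∪ Y) U = D.d X U + D.d Y U := by
  unfold d
  rw [filter_union, card_union_of_disjoint (disjoint_filter_filter hd)]

theorem mem_N {b : Bool} {W : Finset V} {x : V} :
    x ∈ D.N b W ↔ ¬ D.R (D.t b) x ∧ ∀ y ∈ W, ¬ D.R y x := by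
  unfold N
  rw [mem_filter]
  exact ⟨fun h => h.2, fun h => ⟨mem_univ _, h⟩⟩

theorem up_N (D : Dat V A) (b : Bool) (W : Finset V) : D.Up (D.N b W) := by
  intro x y hxy hy
  rw [mem_N] at hy ⊢
  exact ⟨fun h => hy.1 (D.trans _ _ _ h hxy), fun z hz h => hy.2 z hz (D.trans _ _ _ h hxy)⟩

theorem not_mem_N {b : Bool} {W : Finset V} {x : V} (hx : x ∈ W) : x ∉ D.N b W := fun h =>
  (mem_N.1 h).2 x hx (D.refl x)

/-- A closed set without the root which meets the complement of `N b W` is met by `W`. -/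
theorem met_of_not_mem_N {b : Bool} {W U : Finset V} {x : V} (hU : D.Up U) (hb : D.t b ∉ U)
    (hx : x ∈ U) (hn : x ∉ D.N b W) : ∃ y ∈ W, y ∈ U := by
  rw [mem_N] at hn
  by_contra hc
  push Not at hc
  refine hn ⟨fun h => hb (hU _ _ h hx), fun y hy h => hc y hy (hU _ _ h hx)⟩

end Dat

end Pool.Agent.Dts
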